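import Pool.Agent.K3h90.FP.Star
import Pool.Agent.Y315.CF.Polygon

/-! # The inequality on the circle, and its integral -/

namespace Pool.Agent.K3h90.FP

open MeasureTheory Pool.Agent.Y315.CF

/-- The distance to the complement of the arc with centre `c` and length `1 / g`. -/
noncomputable def W (g : ℕ) (c x : UnitAddCircle) : ℝ := max (1 / (2 * g) - ‖x - c‖) 0

/-- The distance to the arc with centre `c` and length `1 / g`. -/
noncomputable def D (g : ℕ) (c x : UnitAddCircle) : ℝ := max (‖x - c‖ - 1 / (2 * g)) 0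

lemma W_nonneg (g : ℕ) (c x : UnitAddCircle) : 0 ≤ W g c x := le_max_right _ _
lemma D_nonneg (g : ℕ) (c x : UnitAddCircle) : 0 ≤ D g c x := le_max_right _ _

lemma W_cont (g : ℕ) (c : UnitAddCircle) : Continuous (W g c) := by unfold W; fun_prop
lemma D_cont (g : ℕ) (c : UnitAddCircle) : Continuous (D g c) := by unfold D; fun_prop

lemma D_sub_W (g : ℕ) (c x : UnitAddCircle) : D g c x - W g c x = ‖x - c‖ - 1 / (2 * g) := by
  unfold D W
  rcases le_total (‖x - c‖) (1 / (2 * g)) with h | h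
  · rw [max_eq_right (by linarith), max_eq_left (by linarith)]; ring
  · rw [max_eq_left (by linarith), max_eq_right (by linarith)]; ring

/-- The arithmetic data. -/
structure Ar (a b g p q : ℕ) : Prop where
  ha : 1 ≤ a
  hab : a < b
  hg : a + b ≤ g
  hco : a.Coprime b
  hp : p = a * g + 1
  hq : q = b * g + 1

/-- The midpoint of two adjacent common fixed points. -/
noncomputable def mid (g : ℕ) (k : ℤ) : UnitAddCircle := (((2 * k + 1) / (2 * g) : ℝ) : UnitAddCircle)

variable {a b g p q : ℕ}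

lemma Ar.g3 (A : Ar a b g p q) : (3 : ℝ) ≤ g := by
  have h1 := A.ha
  have h2 := A.hab
  have h3 := A.hg
  exact_mod_cast (by omega : 3 ≤ g)

lemma star (A : Ar a b g p q) (k : ℤ) (x : UnitAddCircle) :
    g * W g (mid g k) x ≤ W g (mid g k) (p • x) + b * D g (mid g k) (p • x)
      + a * D g (mid g k) (q • x) := by
  have hg3 := A.g3
  have hg0 : (g : ℝ) ≠ 0 := by linarith
  obtain ⟨x0, rfl⟩ := QuotientAddGroup.mk_surjective x
  set c0 : ℝ := (2 * k + 1) / (2 * g) with hc0
  have hx : (QuotientAddGroup.mk x0 : UnitAddCircle) = ((x0 : ℝ) : UnitAddCircle) := rfl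
  rw [hx]
  set s : ℝ := x0 - c0 - round (x0 - c0) with hs
  have n0 : ‖((x0 : ℝ) : UnitAddCircle) - mid g k‖ = |s| := by
    unfold mid; rw [← AddCircle.coe_sub, UnitAddCircle.norm_eq]
  set w : ℝ := 1 / (2 * g) with hw
  have hw1 : 2 * (g : ℝ) * w = 1 := by rw [hw]; field_simp
  have np : ∀ r m : ℕ, r = m * g + 1 → ∃ i : ℤ, ‖r • ((x0 : ℝ) : UnitAddCircle) - mid g k‖
      = |(m : ℝ) / 2 + (m * g + 1) * s - i| ∧ |(m : ℝ) / 2 + (m * g + 1) * s - i| ≤ 1 / 2 := by
    intro r m hr
    refine ⟨round ((r : ℝ) * x0 - c0) - (m * k + r * round (x0 - c0)), ?_⟩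
    have e : (m : ℝ) / 2 + (m * g + 1) * s
        - ((round ((r : ℝ) * x0 - c0) - (m * k + r * round (x0 - c0)) : ℤ) : ℝ)
        = ((r : ℝ) * x0 - c0) - round ((r : ℝ) * x0 - c0) := by
      push_cast
      rw [hs, hr]
      push_cast
      rw [hc0]
      field_simp
      ring
    rw [e]
    refine ⟨?_, abs_sub_round _⟩
    unfold mid
    rw [nsmul_coe, ← AddCircle.coe_sub, UnitAddCircle.norm_eq]
  obtain ⟨i, hi1, hi2⟩ := np p a A.hp
  obtain ⟨j, hj1, hj2⟩ := np q b A.hq
  have hR : 0 ≤ W g (mid g k) (p • ((x0 : ℝ) : UnitAddCircle))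
      + b * D g (mid g k) (p • ((x0 : ℝ) : UnitAddCircle))
      + a * D g (mid g k) (q • ((x0 : ℝ) : UnitAddCircle)) := by
    have := W_nonneg g (mid g k) (p • ((x0 : ℝ) : UnitAddCircle))
    have := D_nonneg g (mid g k) (p • ((x0 : ℝ) : UnitAddCircle))
    have := D_nonneg g (mid g k) (q • ((x0 : ℝ) : UnitAddCircle))
    positivity
  rcases le_total w (|s|) with h | h
  · have : W g (mid g k) ((x0 : ℝ) : UnitAddCircle) = 0 := by
      unfold W; rw [n0]; exact max_eq_right (by linarith)
    rw [this, mul_zero]; exact hR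
  · have := star_key A.ha A.hab A.hg A.hco hw1 h rfl rfl hi2 (j := j)
    unfold W D
    rw [n0, hi1, hj1, max_eq_left (by linarith)]
    exact this

lemma int_cont {μ : Measure UnitAddCircle} [IsFiniteMeasure μ] {f : UnitAddCircle → ℝ}
    (hf : Continuous f) : Integrable f μ :=
  hf.integrable_of_hasCompactSupport (HasCompactSupport.of_compactSpace f)

lemma int_inv {μ : Measure UnitAddCircle} {f : UnitAddCircle → ℝ}
    (hf : Continuous f) {r : ℕ} (hr : MeasurePreserving (fun x => r • x) μ μ) :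
    ∫ x, f (r • x) ∂μ = ∫ x, f x ∂μ := by
  have h1 := integral_map (μ := μ) hr.measurable.aemeasurable
    (f := f) (by rw [hr.map_eq]; exact hf.aestronglyMeasurable)
  rw [hr.map_eq] at h1
  exact h1.symm

/-- **The integral inequality.** -/
theorem integral_star (A : Ar a b g p q) (k : ℤ) {μ : Measure UnitAddCircle} [IsFiniteMeasure μ]
    (hp : MeasurePreserving (fun x => p • x) μ μ) (hq : MeasurePreserving (fun x => q • x) μ μ) :
    ((g : ℝ) - 1) * ∫ x, W g (mid g k) x ∂μ ≤ (a + b) * ∫ x, D g (mid g k) x ∂μ := by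
  have cW := W_cont g (mid g k)
  have cD := D_cont g (mid g k)
  have cWp : Continuous (fun x : UnitAddCircle => W g (mid g k) (p • x)) :=
    cW.comp (continuous_nsmul p)
  have cDp : Continuous (fun x : UnitAddCircle => D g (mid g k) (p • x)) :=
    cD.comp (continuous_nsmul p)
  have cDq : Continuous (fun x : UnitAddCircle => D g (mid g k) (q • x)) :=
    cD.comp (continuous_nsmul q)
  have h1 : ∫ x, (g * W g (mid g k) x) ∂μ ≤ ∫ x, (W g (mid g k) (p • x)
      + b * D g (mid g k) (p • x) + a * D g (mid g k) (q • x)) ∂μ := by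
    apply integral_mono
    · exact int_cont (by fun_prop)
    · exact int_cont (by fun_prop)
    · exact fun x => star A k x
  rw [integral_add, integral_add, integral_const_mul, integral_const_mul, integral_const_mul,
    int_inv cW hp, int_inv cD hp, int_inv cD hq] at h1
  · linarith
  · exact int_cont cWp
  · exact int_cont (by fun_prop)
  · exact int_cont (by fun_prop)
  · exact int_cont (by fun_prop)

/-- If `a + b < g`, the mean distance to a midpoint is at least `1 / (2 g)`. -/
theorem mean_mid (A : Ar a b g p q) (h : a + b < g) (k : ℤ) {μ : Measure UnitAddCircle}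
    [IsProbabilityMeasure μ]
    (hp : MeasurePreserving (fun x => p • x) μ μ) (hq : MeasurePreserving (fun x => q • x) μ μ) :
    1 / (2 * (g : ℝ)) ≤ ∫ x, ‖x - mid g k‖ ∂μ := by
  have h1 := integral_star A k hp hq
  have hD : 0 ≤ ∫ x, D g (mid g k) x ∂μ := integral_nonneg (D_nonneg g (mid g k))
  have h2 : (a : ℝ) + b ≤ g - 1 := by
    have : (a : ℝ) + b + 1 ≤ g := by exact_mod_cast h
    linarith
  have h3 : ((g : ℝ) - 1) * ∫ x, W g (mid g k) x ∂μ ≤ ((g : ℝ) - 1) * ∫ x, D g (mid g k) x ∂μ :=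
    h1.trans (mul_le_mul_of_nonneg_right h2 hD)
  have hg3 := A.g3
  have h4 : ∫ x, W g (mid g k) x ∂μ ≤ ∫ x, D g (mid g k) x ∂μ :=
    le_of_mul_le_mul_left h3 (by linarith)
  have h5 : ∫ x, (D g (mid g k) x - W g (mid g k) x) ∂μ
      = ∫ x, D g (mid g k) x ∂μ - ∫ x, W g (mid g k) x ∂μ :=
    integral_sub (int_cont (D_cont _ _)) (int_cont (W_cont _ _))
  have h6 : ∫ x, (D g (mid g k) x - W g (mid g k) x) ∂μ = ∫ x, ‖x - mid g k‖ ∂μ - 1 / (2 * g) := by
    simp only [D_sub_W]
    rw [integral_sub (int_cont (by fun_prop)) (int_cont (by fun_prop))]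
    simp
  linarith

end Pool.Agent.K3h90.FP
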