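import Pool.Agent.K3h90.FP.Circle

/-! # Convex costs: the nearest invariant measure to a Dirac measure -/

namespace Pool.Agent.K3h90.FP

open MeasureTheory Pool.Agent.Y315.CF

variable {a b g p q : ℕ}

/-- Every point lies in an arc between two adjacent common fixed points. -/
lemma nearest (hg : 0 < g) (θ : UnitAddCircle) : ∃ (k : ℤ) (z : UnitAddCircle), g • z = 0 ∧
    ‖z - θ‖ + ‖mid g k - θ‖ ≤ 1 / (2 * g) ∧ ‖z - mid g k‖ = 1 / (2 * g) ∧
    ‖z - θ‖ + ‖mid g k - θ‖ = 1 / (2 * g) := by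
  obtain ⟨t, rfl⟩ := QuotientAddGroup.mk_surjective θ
  have ht : (QuotientAddGroup.mk t : UnitAddCircle) = ((t : ℝ) : UnitAddCircle) := rfl
  rw [ht]
  have hg' : (0 : ℝ) < g := by exact_mod_cast hg
  have hg1 : (1 : ℝ) ≤ g := by exact_mod_cast hg
  set k : ℤ := ⌊(g : ℝ) * t⌋ with hk
  have h1 : (k : ℝ) ≤ g * t := Int.floor_le _
  have h2 : (g : ℝ) * t < k + 1 := Int.lt_floor_add_one _
  have hnorm : ∀ u : ℝ, |u| ≤ 1 / 2 → ‖((u : ℝ) : UnitAddCircle)‖ = |u| := by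
    intro u hu
    rw [AddCircle.norm_coe_eq_abs_iff _ one_ne_zero]
    simpa using hu
  have hw : 1 / (2 * (g : ℝ)) ≤ 1 / 2 := by
    rw [div_le_div_iff₀ (by positivity) (by positivity)]; linarith
  set c0 : ℝ := (2 * k + 1) / (2 * g) with hc0
  have hc : mid g k = ((c0 : ℝ) : UnitAddCircle) := rfl
  have b1 : |c0 - t| ≤ 1 / (2 * g) := by
    rw [abs_le, hc0]
    constructor
    · have : t ≤ (k + 1) / g := by rw [le_div_iff₀ hg']; linarith
      have e : (2 * (k : ℝ) + 1) / (2 * g) = (k + 1) / g - 1 / (2 * g) := by field_simp; ring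
      rw [e]; linarith
    · have : (k : ℝ) / g ≤ t := by rw [div_le_iff₀ hg']; linarith
      have e : (2 * (k : ℝ) + 1) / (2 * g) = k / g + 1 / (2 * g) := by field_simp
      rw [e]; linarith
  have hgz : ∀ i : ℤ, g • (((i : ℝ) / g : ℝ) : UnitAddCircle) = 0 := by
    intro i
    rw [nsmul_coe, coe_eq_zero]
    exact ⟨i, by field_simp⟩
  have hmid : ‖mid g k - ((t : ℝ) : UnitAddCircle)‖ = |c0 - t| := by
    rw [hc, ← AddCircle.coe_sub, hnorm _ (b1.trans hw)]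
  rcases le_total t c0 with h | h
  · refine ⟨k, (((k : ℝ) / g : ℝ) : UnitAddCircle), hgz k, ?_⟩
    have e : (k : ℝ) / g = c0 - 1 / (2 * g) := by rw [hc0]; field_simp; ring
    have e1 : (k : ℝ) / g ≤ t := by rw [div_le_iff₀ hg']; linarith
    have n1 : ‖(((k : ℝ) / g : ℝ) : UnitAddCircle) - ((t : ℝ) : UnitAddCircle)‖ = t - k / g := by
      rw [← AddCircle.coe_sub, hnorm, abs_of_nonpos (by linarith)]
      · ring
      · rw [abs_of_nonpos (by linarith)]; rw [e]; linarith [hw]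
    have n2 : ‖(((k : ℝ) / g : ℝ) : UnitAddCircle) - mid g k‖ = 1 / (2 * g) := by
      rw [hc, ← AddCircle.coe_sub, hnorm, e]
      · rw [show c0 - 1 / (2 * (g : ℝ)) - c0 = -(1 / (2 * g)) by ring, abs_neg, abs_of_pos (by positivity)]
      · rw [e, show c0 - 1 / (2 * (g : ℝ)) - c0 = -(1 / (2 * g)) by ring, abs_neg, abs_of_pos (by positivity)]
        exact hw
    have e3 : ‖(((k : ℝ) / g : ℝ) : UnitAddCircle) - ((t : ℝ) : UnitAddCircle)‖
        + ‖mid g k - ((t : ℝ) : UnitAddCircle)‖ = 1 / (2 * g) := by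
      rw [n1, hmid, abs_of_nonneg (by linarith), e]; ring
    exact ⟨e3.le, n2, e3⟩
  · refine ⟨k, ((((k + 1 : ℤ) : ℝ) / g : ℝ) : UnitAddCircle), hgz (k + 1), ?_⟩
    push_cast
    have e : ((k : ℝ) + 1) / g = c0 + 1 / (2 * g) := by rw [hc0]; field_simp; ring
    have e1 : t ≤ ((k : ℝ) + 1) / g := by rw [le_div_iff₀ hg']; linarith
    have n1 : ‖((((k : ℝ) + 1) / g : ℝ) : UnitAddCircle) - ((t : ℝ) : UnitAddCircle)‖
        = (k + 1) / g - t := by
      rw [← AddCircle.coe_sub, hnorm, abs_of_nonneg (by linarith)]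
      rw [abs_of_nonneg (by linarith)]; rw [e]; linarith [hw]
    have n2 : ‖((((k : ℝ) + 1) / g : ℝ) : UnitAddCircle) - mid g k‖ = 1 / (2 * g) := by
      rw [hc, ← AddCircle.coe_sub, hnorm, e]
      · rw [show c0 + 1 / (2 * (g : ℝ)) - c0 = 1 / (2 * g) by ring, abs_of_pos (by positivity)]
      · rw [e, show c0 + 1 / (2 * (g : ℝ)) - c0 = 1 / (2 * g) by ring, abs_of_pos (by positivity)]
        exact hw
    have e3 : ‖((((k : ℝ) + 1) / g : ℝ) : UnitAddCircle) - ((t : ℝ) : UnitAddCircle)‖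
        + ‖mid g k - ((t : ℝ) : UnitAddCircle)‖ = 1 / (2 * g) := by
      rw [n1, hmid, abs_of_nonpos (by linarith), e]; ring
    exact ⟨e3.le, n2, e3⟩

/-- The mean distance to `θ` is at least the distance from `θ` to the fixed point `z`. -/
theorem mean_dist (A : Ar a b g p q) (h : a + b < g) {k : ℤ} {z θ : UnitAddCircle}
    (hz : ‖z - θ‖ + ‖mid g k - θ‖ ≤ 1 / (2 * g)) {μ : Measure UnitAddCircle}
    [IsProbabilityMeasure μ]
    (hp : MeasurePreserving (fun x => p • x) μ μ) (hq : MeasurePreserving (fun x => q • x) μ μ) :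
    ‖z - θ‖ ≤ ∫ x, ‖x - θ‖ ∂μ := by
  have h1 := mean_mid A h k hp hq
  have h2 : ∫ x, ‖x - mid g k‖ ∂μ ≤ ∫ x, (‖x - θ‖ + ‖mid g k - θ‖) ∂μ := by
    apply integral_mono (int_cont (by fun_prop)) (int_cont (by fun_prop))
    intro x
    show ‖x - mid g k‖ ≤ ‖x - θ‖ + ‖mid g k - θ‖
    calc ‖x - mid g k‖ = ‖(x - θ) - (mid g k - θ)‖ := by congr 1; abel
      _ ≤ ‖x - θ‖ + ‖mid g k - θ‖ := norm_sub_le _ _
  rw [integral_add (int_cont (by fun_prop)) (int_cont (by fun_prop))] at h2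
  simp only [integral_const, probReal_univ, smul_eq_mul, one_mul] at h2
  linarith

lemma norm_le_half (x : UnitAddCircle) : ‖x‖ ≤ 1 / 2 := by
  obtain ⟨t, rfl⟩ := QuotientAddGroup.mk_surjective x
  have ht : (QuotientAddGroup.mk t : UnitAddCircle) = ((t : ℝ) : UnitAddCircle) := rfl
  rw [ht, UnitAddCircle.norm_eq]
  exact abs_sub_round t

/-- **Convex costs.** -/
theorem cost (A : Ar a b g p q) (h : a + b < g) {k : ℤ} {z θ : UnitAddCircle}
    (hz : ‖z - θ‖ + ‖mid g k - θ‖ ≤ 1 / (2 * g)) {ψ : ℝ → ℝ}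
    (hψ : ConvexOn ℝ (Set.Icc 0 (1 / 2)) ψ) (hm : MonotoneOn ψ (Set.Icc 0 (1 / 2)))
    (hc : ContinuousOn ψ (Set.Icc 0 (1 / 2))) {μ : Measure UnitAddCircle}
    [IsProbabilityMeasure μ]
    (hp : MeasurePreserving (fun x => p • x) μ μ) (hq : MeasurePreserving (fun x => q • x) μ μ) :
    ψ ‖z - θ‖ ≤ ∫ x, ψ ‖x - θ‖ ∂μ := by
  have hmem : ∀ x : UnitAddCircle, ‖x‖ ∈ Set.Icc (0 : ℝ) (1 / 2) := fun x =>
    ⟨norm_nonneg x, norm_le_half x⟩
  have hcont : Continuous (fun x : UnitAddCircle => ψ ‖x - θ‖) := by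
    have : Continuous (fun x : UnitAddCircle => ‖x - θ‖) := by fun_prop
    exact hc.comp_continuous this (fun x => hmem _)
  have h1 := mean_dist A h hz hp hq
  have h2 : ∫ x, ‖x - θ‖ ∂μ ≤ 1 / 2 := by
    calc ∫ x, ‖x - θ‖ ∂μ ≤ ∫ _x : UnitAddCircle, (1 / 2 : ℝ) ∂μ :=
          integral_mono (int_cont (by fun_prop)) (integrable_const _) (fun x => norm_le_half _)
      _ = 1 / 2 := by simp
  have h0 : 0 ≤ ∫ x, ‖x - θ‖ ∂μ := integral_nonneg fun x => norm_nonneg _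
  have h3 := hm (hmem (z - θ)) ⟨h0, h2⟩ h1
  refine h3.trans ?_
  exact hψ.map_integral_le hc isClosed_Icc (Filter.Eventually.of_forall fun x => hmem (x - θ))
    (int_cont (by fun_prop)) (int_cont hcont)

end Pool.Agent.K3h90.FP
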