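import Pool.Agent.K3h90.FP.Poly

/-! # A four-point orbit outside the polygon -/

namespace Pool.Agent.K3h90.FP

open MeasureTheory Pool.Agent.Y315.CF

lemma fourier_sub (y t : UnitAddCircle) :
    (fourier 1 (y - t) : ℂ) = fourier 1 y * (starRingEnd ℂ) (fourier 1 t) := by
  obtain ⟨a, rfl⟩ := QuotientAddGroup.mk_surjective y
  obtain ⟨b, rfl⟩ := QuotientAddGroup.mk_surjective t
  have h4 : (fourier 1 ((a : UnitAddCircle) - (b : UnitAddCircle)) : ℂ)
      = fourier 1 (a : UnitAddCircle) * (starRingEnd ℂ) (fourier 1 (b : UnitAddCircle)) := by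
    rw [← AddCircle.coe_sub, fourier_one_coe, fourier_one_coe, fourier_one_coe,
      ← Complex.exp_conj, ← Complex.exp_add]
    congr 1
    have e : (2 * Real.pi * b * Complex.I : ℂ) = ((2 * Real.pi * b : ℝ) : ℂ) * Complex.I := by
      push_cast; ring
    rw [e, map_mul, Complex.conj_ofReal, Complex.conj_I]
    push_cast; ring
  exact h4

/-- The uniform measure on four points. -/
noncomputable def four (x y z w : UnitAddCircle) : Measure UnitAddCircle :=
  (4⁻¹ : ENNReal) • (Measure.dirac x + Measure.dirac y + Measure.dirac z + Measure.dirac w)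

lemma four_prob (x y z w : UnitAddCircle) : IsProbabilityMeasure (four x y z w) := by
  constructor
  unfold four
  simp only [Measure.smul_apply, Measure.add_apply, measure_univ, smul_eq_mul]
  rw [show (1 : ENNReal) + 1 + 1 + 1 = 4 by norm_num]
  exact ENNReal.inv_mul_cancel (by norm_num) (by norm_num)

lemma four_map {x y z w : UnitAddCircle} {f : UnitAddCircle → UnitAddCircle} (hf : Measurable f) :
    (four x y z w).map f = four (f x) (f y) (f z) (f w) := by
  unfold four
  rw [Measure.map_smul, Measure.map_add _ _ hf, Measure.map_add _ _ hf, Measure.map_add _ _ hf,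
    Measure.map_dirac' hf, Measure.map_dirac' hf, Measure.map_dirac' hf, Measure.map_dirac' hf]

lemma four_integral (x y z w : UnitAddCircle) :
    ∫ v, (fourier 1 v : ℂ) ∂(four x y z w)
      = (1 / 4 : ℂ) * (fourier 1 x + fourier 1 y + fourier 1 z + fourier 1 w) := by
  have h : ∀ ν : Measure UnitAddCircle, IsFiniteMeasure ν →
      Integrable (fun v : UnitAddCircle => (fourier 1 v : ℂ)) ν := fun ν _ => fourier_integrable ν 1
  unfold four
  rw [integral_smul_measure, integral_add_measure (h _ inferInstance) (h _ inferInstance),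
    integral_add_measure (h _ inferInstance) (h _ inferInstance),
    integral_add_measure (h _ inferInstance) (h _ inferInstance),
    integral_dirac, integral_dirac, integral_dirac, integral_dirac]
  rw [Complex.real_smul]
  congr 1
  simp

/-- The four points. -/
noncomputable def pt (g : ℕ) (s : ℝ) : UnitAddCircle := ((1 / (2 * g) + s : ℝ) : UnitAddCircle)

lemma pt_mul {g r : ℕ} {s s' : ℝ} (i : ℤ) (h : (r : ℝ) * (1 / (2 * g) + s)
    = 1 / (2 * g) + s' + i) : r • pt g s = pt g s' := by
  unfold pt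
  rw [nsmul_coe, coe_eq_coe]
  exact ⟨i, by rw [h]; ring⟩

lemma far {g : ℕ} (hg : 0 < g) {z : ℂ} (hz : z ^ g = 1) :
    (z * (starRingEnd ℂ) (fourier 1 (pt g 0))).re ≤ Real.cos (Real.pi / g) := by
  have hg' : (0 : ℝ) < g := by exact_mod_cast hg
  have hg1 : (1 : ℝ) ≤ g := by exact_mod_cast hg
  have hn : ‖z‖ = 1 := by
    have := congrArg norm hz
    rw [norm_pow, norm_one] at this
    exact (pow_eq_one_iff_of_nonneg (norm_nonneg z) hg.ne').1 this
  obtain ⟨y, hy⟩ := exists_angle hn
  have hgy : g • y = 0 := fourier_eq_one (by rw [fourier_nsmul', hy, hz])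
  rw [← hy, ← fourier_sub]
  show cosC (y - pt g 0) ≤ _
  rw [cosC_eq]
  have h1 : g • (y - pt g 0) = ((1 / 2 : ℝ) : UnitAddCircle) := by
    rw [nsmul_sub, hgy, zero_sub]
    unfold pt
    rw [nsmul_coe, ← AddCircle.coe_neg, coe_eq_coe]
    refine ⟨-1, ?_⟩
    push_cast; field_simp; ring
  have h2 : ‖((1 / 2 : ℝ) : UnitAddCircle)‖ = 1 / 2 := by
    have h : ‖((1 / 2 : ℝ) : UnitAddCircle)‖ = |(1 / 2 : ℝ)| := by
      rw [AddCircle.norm_coe_eq_abs_iff _ one_ne_zero]
      rw [abs_of_pos (by norm_num)]; simp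
    rw [h, abs_of_pos (by norm_num)]
  have h3 : (1 / 2 : ℝ) ≤ g * ‖y - pt g 0‖ := by
    rw [← h2, ← h1]
    exact norm_nsmul_le
  have h4 := norm_le_half (y - pt g 0)
  have hpi := Real.pi_pos
  apply Real.cos_le_cos_of_nonneg_of_le_pi (by positivity)
  · nlinarith
  · rw [div_le_iff₀ hg']; nlinarith

/-- **Sharpness.** -/
theorem sharp {g : ℕ} (hg : 0 < g) : ∃ μ : Measure UnitAddCircle, IsProbabilityMeasure μ ∧
    MeasurePreserving (fun x => (g + 1) • x) μ μ ∧
    MeasurePreserving (fun x => (g ^ 2 + g + 1) • x) μ μ ∧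
    ∫ x, (fourier 1 x : ℂ) ∂μ ∉ convexHull ℝ {z : ℂ | z ^ g = 1} := by
  have hg' : (0 : ℝ) < g := by exact_mod_cast hg
  have hg1 : (1 : ℝ) ≤ g := by exact_mod_cast hg
  set N : ℝ := (g : ℝ) ^ 2 + 2 * g + 2 with hN
  have hN0 : 0 < N := by positivity
  set s : ℝ := g / (2 * N) with hs
  set s' : ℝ := (g + 2) / (2 * N) with hs'
  have p1 : (g + 1) • pt g s' = pt g s := pt_mul 1 (by
    rw [hs, hs', hN]; push_cast; field_simp; ring)
  have p2 : (g + 1) • pt g s = pt g (-s') := pt_mul 1 (by
    rw [hs, hs', hN]; push_cast; field_simp; ring)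
  have p3 : (g + 1) • pt g (-s') = pt g (-s) := pt_mul 0 (by
    rw [hs, hs', hN]; push_cast; field_simp; ring)
  have p4 : (g + 1) • pt g (-s) = pt g s' := pt_mul 0 (by
    rw [hs, hs', hN]; push_cast; field_simp; ring)
  have q1 : (g ^ 2 + g + 1) • pt g s' = pt g (-s) := pt_mul (g + 1) (by
    rw [hs, hs', hN]; push_cast; field_simp; ring)
  have q2 : (g ^ 2 + g + 1) • pt g s = pt g s' := pt_mul g (by
    rw [hs, hs', hN]; push_cast; field_simp; ring)
  have q3 : (g ^ 2 + g + 1) • pt g (-s') = pt g s := pt_mul 0 (by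
    rw [hs, hs', hN]; push_cast; field_simp; ring)
  have q4 : (g ^ 2 + g + 1) • pt g (-s) = pt g (-s') := pt_mul 1 (by
    rw [hs, hs', hN]; push_cast; field_simp; ring)
  have hmp : Measurable (fun x : UnitAddCircle => (g + 1) • x) :=
    (continuous_nsmul (g + 1)).measurable
  have hmq : Measurable (fun x : UnitAddCircle => (g ^ 2 + g + 1) • x) :=
    (continuous_nsmul (g ^ 2 + g + 1)).measurable
  refine ⟨four (pt g s') (pt g s) (pt g (-s')) (pt g (-s)), four_prob _ _ _ _, ⟨hmp, ?_⟩,
    ⟨hmq, ?_⟩, ?_⟩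
  · rw [four_map hmp, p1, p2, p3, p4]
    unfold four
    congr 1
    abel
  · rw [four_map hmq, q1, q2, q3, q4]
    unfold four
    congr 1
    abel
  · intro hmem
    set u : ℂ := (starRingEnd ℂ) (fourier 1 (pt g 0)) with hu
    have hconv : Convex ℝ {w : ℂ | (w * u).re ≤ Real.cos (Real.pi / g)} := by
      apply convex_halfSpace_le
      refine ⟨fun x y => ?_, fun r x => ?_⟩
      · rw [add_mul, Complex.add_re]
      · rw [Complex.real_smul, mul_assoc, Complex.re_ofReal_mul, smul_eq_mul]
    have h1 := convexHull_min (s := {z : ℂ | z ^ g = 1}) (fun z hz => far hg hz) hconv hmem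
    have h2 : ((∫ v, (fourier 1 v : ℂ) ∂(four (pt g s') (pt g s) (pt g (-s')) (pt g (-s)))) * u).re
        ≤ Real.cos (Real.pi / g) := h1
    rw [four_integral] at h2
    have h3 : ∀ r : ℝ, (fourier 1 (pt g r) * u).re = Real.cos (2 * Real.pi * r) := by
      intro r
      rw [hu, ← fourier_sub]
      have : pt g r - pt g 0 = ((r : ℝ) : UnitAddCircle) := by
        unfold pt
        rw [← AddCircle.coe_sub]
        congr 1
        ring
      rw [this]
      exact cosC_coe r
    have h4 : ((1 / 4 : ℂ) * (fourier 1 (pt g s') + fourier 1 (pt g s) + fourier 1 (pt g (-s'))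
        + fourier 1 (pt g (-s))) * u).re = (Real.cos (2 * Real.pi * s') + Real.cos (2 * Real.pi * s)) / 2 := by
      have e : (1 / 4 : ℂ) * (fourier 1 (pt g s') + fourier 1 (pt g s) + fourier 1 (pt g (-s'))
        + fourier 1 (pt g (-s))) * u = ((1 / 4 : ℝ) : ℂ) * (fourier 1 (pt g s') * u + fourier 1 (pt g s) * u
          + fourier 1 (pt g (-s')) * u + fourier 1 (pt g (-s)) * u) := by
        push_cast; ring
      rw [e, Complex.re_ofReal_mul, Complex.add_re, Complex.add_re, Complex.add_re, h3, h3, h3, h3]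
      have c1 : Real.cos (2 * Real.pi * -s') = Real.cos (2 * Real.pi * s') := by
        rw [mul_neg, Real.cos_neg]
      have c2 : Real.cos (2 * Real.pi * -s) = Real.cos (2 * Real.pi * s) := by
        rw [mul_neg, Real.cos_neg]
      rw [c1, c2]; ring
    rw [h4] at h2
    have hpi := Real.pi_pos
    have l1 : s' < 1 / (2 * g) := by
      rw [hs', div_lt_div_iff₀ (by positivity) (by positivity), hN]; nlinarith
    have l2 : s < 1 / (2 * g) := by
      rw [hs, div_lt_div_iff₀ (by positivity) (by positivity), hN]; nlinarith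
    have k0 : Real.pi / g = 2 * Real.pi * (1 / (2 * g)) := by field_simp
    have k1 : Real.pi / g ≤ Real.pi := by
      rw [div_le_iff₀ hg']; nlinarith
    have k2 : ∀ r : ℝ, 0 ≤ r → r < 1 / (2 * g) → Real.cos (Real.pi / g) < Real.cos (2 * Real.pi * r) := by
      intro r hr0 hr
      apply Real.cos_lt_cos_of_nonneg_of_le_pi (by positivity) k1
      rw [k0]
      exact mul_lt_mul_of_pos_left hr (by positivity)
    have := k2 s' (by rw [hs']; positivity) l1
    have := k2 s (by rw [hs]; positivity) l2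
    linarith

end Pool.Agent.K3h90.FP
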