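import Pool.Agent.K3h90.FP.Main
import Pool.Agent.K3h90.FP.Sharp

/-! # Multiplicative independence of the sharp family -/

namespace Pool.Agent.K3h90.FP

open MeasureTheory Pool.Agent.Y315.CF

lemma irrational_of_coprime {p q : ℕ} (hp : 1 < p) (hpq : p < q) (hco : p.Coprime q) :
    Irrational (Real.log p / Real.log q) := by
  rintro ⟨r, hr⟩
  have hq1 : (1 : ℝ) < q := by exact_mod_cast (by omega : 1 < q)
  have hp1 : (1 : ℝ) < p := by exact_mod_cast hp
  have lp : 0 < Real.log p := Real.log_pos hp1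
  have lq : 0 < Real.log q := Real.log_pos hq1
  have hr0 : 0 < r := by
    have : (0 : ℝ) < (r : ℝ) := by rw [hr]; positivity
    exact_mod_cast this
  have hnum : (0 : ℤ) < r.num := Rat.num_pos.2 hr0
  obtain ⟨j, hj⟩ := Int.eq_ofNat_of_zero_le hnum.le
  have hrj : (r : ℝ) = j / r.den := by
    rw [Rat.cast_def, hj]; simp
  have hden : (0 : ℝ) < r.den := by exact_mod_cast r.den_pos
  have e : (r.den : ℝ) * Real.log p = j * Real.log q := by
    rw [hrj] at hr
    field_simp at hr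
    linarith
  have hpow : p ^ r.den = q ^ j := by
    have h1 : Real.log ((p : ℝ) ^ r.den) = Real.log ((q : ℝ) ^ j) := by
      rw [Real.log_pow, Real.log_pow]; exact e
    have h2 := Real.log_injOn_pos (Set.mem_Ioi.2 (by positivity)) (Set.mem_Ioi.2 (by positivity)) h1
    exact_mod_cast h2
  have h1 : (p ^ r.den).Coprime (q ^ j) := Nat.Coprime.pow _ _ hco
  rw [← hpow, Nat.coprime_self] at h1
  have h2 : 1 < p ^ r.den := Nat.one_lt_pow r.den_pos.ne' hp
  omega

theorem sharp_family {g : ℕ} (hg : 0 < g) : ∃ p q : ℕ, 1 < p ∧ p < q ∧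
    (p - 1).gcd (q - 1) = g ∧ p + q = g ^ 2 + 2 * g + 2 ∧
    Irrational (Real.log p / Real.log q) ∧
    ∃ μ : Measure UnitAddCircle, IsProbabilityMeasure μ ∧
      MeasurePreserving (fun x => p • x) μ μ ∧ MeasurePreserving (fun x => q • x) μ μ ∧
      ∫ x, (fourier 1 x : ℂ) ∂μ ∉ convexHull ℝ {z : ℂ | z ^ g = 1} := by
  have h1 : 0 < g ^ 2 := by positivity
  refine ⟨g + 1, g ^ 2 + g + 1, by omega, by omega, ?_, by ring, ?_, sharp hg⟩
  · rw [show g + 1 - 1 = g by omega, show g ^ 2 + g + 1 - 1 = g * (g + 1) by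
      rw [show g * (g + 1) = g ^ 2 + g by ring]; omega]
    exact Nat.gcd_eq_left (dvd_mul_right g (g + 1))
  · apply irrational_of_coprime (by omega) (by omega)
    rw [show g ^ 2 + g + 1 = 1 + (g + 1) * g by ring, Nat.coprime_add_mul_left_right]
    exact Nat.coprime_one_right _

/-- **All parts under `p + q < g ^ 2 + 2`.** -/
theorem main {p q : ℕ} (hp : 1 < p) (hpq : p < q) (h : p + q < ((p - 1).gcd (q - 1)) ^ 2 + 2) :
    Irrational (Real.log p / Real.log q) ∧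
    {c : ℂ | ∃ μ : Measure UnitAddCircle, IsProbabilityMeasure μ ∧
      MeasurePreserving (fun x => p • x) μ μ ∧ MeasurePreserving (fun x => q • x) μ μ ∧
      c = ∫ x, fourier 1 x ∂μ} = convexHull ℝ {z : ℂ | z ^ (p - 1).gcd (q - 1) = 1} ∧
    (∀ μ : Measure UnitAddCircle, IsProbabilityMeasure μ →
      MeasurePreserving (fun x => p • x) μ μ → MeasurePreserving (fun x => q • x) μ μ →
      (∀ n : ℤ, ∫ x, (fourier n x : ℂ) ∂μ ∈ convexHull ℝ {z : ℂ | z ^ (p - 1).gcd (q - 1) = 1}) ∧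
      (∫ x, (fourier 1 x : ℂ) ∂μ ∉
          interior (convexHull ℝ {z : ℂ | z ^ (p - 1).gcd (q - 1) = 1}) →
        ∀ᵐ x ∂μ, p • x = x ∧ q • x = x)) ∧
    (∀ θ : UnitAddCircle, ∃ z : UnitAddCircle, p • z = z ∧ q • z = z ∧
      ∀ ψ : ℝ → ℝ, ConvexOn ℝ (Set.Icc 0 (1 / 2)) ψ → MonotoneOn ψ (Set.Icc 0 (1 / 2)) →
        ContinuousOn ψ (Set.Icc 0 (1 / 2)) →
        ∀ μ : Measure UnitAddCircle, IsProbabilityMeasure μ →
          MeasurePreserving (fun x => p • x) μ μ → MeasurePreserving (fun x => q • x) μ μ →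
          ψ ‖z - θ‖ ≤ ∫ x, ψ ‖x - θ‖ ∂μ) := by
  obtain ⟨a, b, A, hlt, -⟩ := ar_of hp hpq h.le
  have hab := hlt h
  refine ⟨irrational hp hpq h, region A hab, fun μ hμ hp' hq' => ⟨fun n => coeff A hab n hp' hq',
    fun hn => ?_⟩, fun θ => ?_⟩
  · filter_upwards [boundary A hab hp' hq' hn] with x hx
    exact fixed_of A hx
  · obtain ⟨k, z, hgz, hle, -, -⟩ := nearest A.gpos θ
    exact ⟨z, (fixed_of A hgz).1, (fixed_of A hgz).2, fun ψ h1 h2 h3 μ hμ hp' hq' =>
      cost A hab hle h1 h2 h3 hp' hq'⟩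

end Pool.Agent.K3h90.FP
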