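import Pool.Agent.K3h90.FP.Poly
import Pool.Agent.Y315.CF.Indep

/-! # All the Fourier coefficients; multiplicative independence; the parameters -/

namespace Pool.Agent.K3h90.FP

open MeasureTheory Pool.Agent.Y315.CF

variable {a b g p q : ℕ}

lemma ar_of (hp : 1 < p) (hpq : p < q) (h : p + q ≤ ((p - 1).gcd (q - 1)) ^ 2 + 2) :
    ∃ a b : ℕ, Ar a b ((p - 1).gcd (q - 1)) p q ∧
      (p + q < ((p - 1).gcd (q - 1)) ^ 2 + 2 → a + b < (p - 1).gcd (q - 1)) ∧
      p + q = (a + b) * (p - 1).gcd (q - 1) + 2 := by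
  obtain ⟨m, n, hm, hmn, hco, hpe, hqe⟩ := setup hp hpq
  have hg0 : 0 < (p - 1).gcd (q - 1) := Nat.gcd_pos_of_pos_left _ (by omega)
  set g := (p - 1).gcd (q - 1) with hg
  have e : p + q = (m + n) * g + 2 := by rw [add_mul]; omega
  refine ⟨m, n, ⟨hm, hmn, ?_, hco, hpe, hqe⟩, ?_, e⟩
  · have h1 : (m + n) * g ≤ g * g := by nlinarith
    exact Nat.le_of_mul_le_mul_right h1 hg0
  · intro h2
    have h1 : (m + n) * g < g * g := by nlinarith
    exact Nat.lt_of_mul_lt_mul_right h1

lemma irrational (hp : 1 < p) (hpq : p < q) (h : p + q < ((p - 1).gcd (q - 1)) ^ 2 + 2) :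
    Irrational (Real.log p / Real.log q) := by
  rintro ⟨r, hr⟩
  have hq1 : (1 : ℝ) < q := by exact_mod_cast (by omega : 1 < q)
  have hp1 : (1 : ℝ) < p := by exact_mod_cast hp
  have lp : 0 < Real.log p := Real.log_pos hp1
  have lq : 0 < Real.log q := Real.log_pos hq1
  have hr0 : 0 < r := by
    have : (0 : ℝ) < (r : ℝ) := by rw [hr]; positivity
    exact_mod_cast this
  have hnum : (0 : ℤ) < r.num := Rat.num_pos.2 hr0
  obtain ⟨j, hj⟩ := Int.eq_ofNat_of_zero_le hnum.le
  have hrj : (r : ℝ) = j / r.den := by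
    rw [Rat.cast_def, hj]; simp
  have hden : (0 : ℝ) < r.den := by exact_mod_cast r.den_pos
  have e : (r.den : ℝ) * Real.log p = j * Real.log q := by
    rw [hrj] at hr
    field_simp at hr
    linarith
  have hpow : p ^ r.den = q ^ j := by
    have h1 : Real.log ((p : ℝ) ^ r.den) = Real.log ((q : ℝ) ^ j) := by
      rw [Real.log_pow, Real.log_pow]; exact e
    have h2 := Real.log_injOn_pos (Set.mem_Ioi.2 (by positivity)) (Set.mem_Ioi.2 (by positivity)) h1
    exact_mod_cast h2
  have h3 := gcd_sq_le hp hpq r.den_pos.ne' hpow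
  omega

/-- The image of a jointly invariant measure under `x ↦ n x`. -/
lemma push (n : ℤ) {μ : Measure UnitAddCircle}
    (hp : MeasurePreserving (fun x => p • x) μ μ) :
    MeasurePreserving (fun x : UnitAddCircle => p • x) (μ.map fun x => n • x)
      (μ.map fun x => n • x) := by
  have hn : Measurable (fun x : UnitAddCircle => n • x) := (continuous_zsmul n).measurable
  have hm : Measurable (fun x : UnitAddCircle => p • x) := (continuous_nsmul p).measurable
  refine ⟨hm, ?_⟩
  rw [Measure.map_map hm hn]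
  have e : ((fun x : UnitAddCircle => p • x) ∘ fun x => n • x)
      = (fun x => n • x) ∘ fun x => p • x := by
    funext x
    show p • n • x = n • p • x
    rw [smul_comm]
  rw [e, ← Measure.map_map hn hm, hp.map_eq]

/-- **All the coefficients.** -/
theorem coeff (A : Ar a b g p q) (h : a + b < g) (n : ℤ) {μ : Measure UnitAddCircle}
    [hμ : IsProbabilityMeasure μ]
    (hp : MeasurePreserving (fun x => p • x) μ μ) (hq : MeasurePreserving (fun x => q • x) μ μ) :
    ∫ x, (fourier n x : ℂ) ∂μ ∈ convexHull ℝ {z : ℂ | z ^ g = 1} := by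
  rw [← region A h]
  have hn : Measurable (fun x : UnitAddCircle => n • x) := (continuous_zsmul n).measurable
  refine ⟨μ.map fun x => n • x, Measure.isProbabilityMeasure_map hn.aemeasurable,
    push n hp, push n hq, ?_⟩
  rw [integral_map hn.aemeasurable
    ((fourier 1 : C(UnitAddCircle, ℂ)).continuous.aestronglyMeasurable)]
  congr 1
  funext x
  simp [fourier_apply]

end Pool.Agent.K3h90.FP
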