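import Mathlib

/-! # A tangent inequality for the cosine on `[0, π]` -/

namespace Pool.Agent.K3h90.FP

open Real Set

lemma K_pos {u : ℝ} (h0 : 0 ≤ u) (h1 : u ≤ π / 4) : 0 < 1 + cos u - (π - u) * sin u := by
  have hd : ∀ x : ℝ, HasDerivAt (fun x : ℝ => 1 + cos x - (π - x) * sin x) (-((π - x) * cos x)) x := by
    intro x
    have e1 : HasDerivAt (fun x : ℝ => 1 + cos x) (-sin x) x := (hasDerivAt_cos x).const_add 1
    have e2 : HasDerivAt (fun x : ℝ => π - x) (-1) x := by
      simpa using (hasDerivAt_id x).const_sub π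
    have e3 : HasDerivAt (fun x : ℝ => 1 + cos x - (π - x) * sin x)
        (-sin x - (-1 * sin x + (π - x) * cos x)) x := e1.sub (e2.mul (hasDerivAt_sin x))
    exact e3.congr_deriv (by ring)
  have anti : AntitoneOn (fun x : ℝ => 1 + cos x - (π - x) * sin x) (Icc 0 (π / 4)) := by
    apply antitoneOn_of_deriv_nonpos (convex_Icc _ _)
    · exact (Continuous.continuousOn (by fun_prop))
    · exact fun x _ => (hd x).differentiableAt.differentiableWithinAt
    · intro x hx
      rw [interior_Icc] at hx
      rw [(hd x).deriv]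
      have hpi := pi_pos
      have c1 : 0 ≤ cos x := cos_nonneg_of_neg_pi_div_two_le_of_le (by linarith [hx.1])
        (by linarith [hx.2])
      have c2 : 0 ≤ π - x := by linarith [hx.2]
      have := mul_nonneg c2 c1
      linarith
  have hpi := pi_pos
  have h2 := anti ⟨h0, h1⟩ (right_mem_Icc.2 (by linarith)) h1
  simp only [cos_pi_div_four, sin_pi_div_four] at h2
  refine lt_of_lt_of_le ?_ h2
  have s2 : √2 < 1.4143 := by
    rw [sqrt_lt' (by norm_num)]; norm_num
  have s0 : 0 ≤ √2 := sqrt_nonneg 2
  have p2 := pi_lt_d2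
  nlinarith

/-- The tangent of the cosine at `u ∈ [0, π / 4]` lies above the cosine on `[0, π]`. -/
lemma cos_lt_tangent {u v : ℝ} (hu0 : 0 ≤ u) (hu : u ≤ π / 4) (hv0 : 0 ≤ v) (hv : v ≤ π)
    (hne : v ≠ u) : cos v < cos u - sin u * (v - u) := by
  have hpi := pi_pos
  set H : ℝ → ℝ := fun x => cos u - sin u * (x - u) - cos x with hH
  have hd : ∀ x : ℝ, HasDerivAt H (sin x - sin u) x := by
    intro x
    have e1 : HasDerivAt (fun x : ℝ => sin u * (x - u)) (sin u) x := by
      simpa using ((hasDerivAt_id x).sub_const u).const_mul (sin u)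
    have e2 : HasDerivAt H (-sin u - -sin x) x := (e1.const_sub (cos u)).sub (hasDerivAt_cos x)
    exact e2.congr_deriv (by ring)
  have hcont : ∀ s, ContinuousOn H s := fun s => by
    apply Continuous.continuousOn; rw [hH]; fun_prop
  have hHu : H u = 0 := by simp [hH]
  suffices h : 0 < H v by simp only [hH] at h; linarith
  rcases lt_trichotomy v u with h | h | h
  · have anti : StrictAntiOn H (Icc 0 u) := by
      apply strictAntiOn_of_deriv_neg (convex_Icc _ _) (hcont _)
      intro x hx
      rw [interior_Icc] at hx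
      rw [(hd x).deriv]
      have := strictMonoOn_sin (a := x) (b := u) ⟨by linarith [hx.1], by linarith [hx.2]⟩
        ⟨by linarith, by linarith⟩ hx.2
      linarith
    have := anti ⟨hv0, h.le⟩ ⟨hu0, le_rfl⟩ h
    rwa [hHu] at this
  · exact absurd h hne
  · rcases le_total v (π - u) with h2 | h2
    · have mono : StrictMonoOn H (Icc u (π - u)) := by
        apply strictMonoOn_of_deriv_pos (convex_Icc _ _) (hcont _)
        intro x hx
        rw [interior_Icc] at hx
        rw [(hd x).deriv]
        rcases le_total x (π / 2) with h3 | h3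
        · have := strictMonoOn_sin (a := u) (b := x) ⟨by linarith, by linarith⟩
            ⟨by linarith [hx.1], by linarith⟩ hx.1
          linarith
        · have := strictMonoOn_sin (a := u) (b := π - x) ⟨by linarith, by linarith⟩
            ⟨by linarith [hx.2], by linarith⟩ (by linarith [hx.2])
          rw [sin_pi_sub] at this
          linarith
      have := mono ⟨le_rfl, by linarith⟩ ⟨h.le, h2⟩ h
      rwa [hHu] at this
    · have anti : AntitoneOn H (Icc (π - u) π) := by
        apply antitoneOn_of_deriv_nonpos (convex_Icc _ _) (hcont _)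
          (fun x _ => (hd x).differentiableAt.differentiableWithinAt)
        intro x hx
        rw [interior_Icc] at hx
        rw [(hd x).deriv]
        have := monotoneOn_sin (a := π - x) (b := u) ⟨by linarith [hx.2], by linarith [hx.1]⟩
          ⟨by linarith, by linarith⟩ (by linarith [hx.1])
        rw [sin_pi_sub] at this
        linarith
      have h3 := anti ⟨h2, hv⟩ ⟨by linarith, le_rfl⟩ hv
      have h4 := K_pos hu0 hu
      have h5 : H π = 1 + cos u - (π - u) * sin u := by simp only [hH, cos_pi]; ring
      linarith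

lemma cos_le_tangent {u v : ℝ} (hu0 : 0 ≤ u) (hu : u ≤ π / 4) (hv0 : 0 ≤ v) (hv : v ≤ π) :
    cos v ≤ cos u - sin u * (v - u) := by
  by_cases h : v = u
  · rw [h]; simp
  · exact (cos_lt_tangent hu0 hu hv0 hv h).le

end Pool.Agent.K3h90.FP
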