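import Pool.Agent.K3h90.FP.Cost
import Pool.Agent.K3h90.FP.Trig

/-! # The polygon of the first Fourier coefficients -/

namespace Pool.Agent.K3h90.FP

open MeasureTheory Pool.Agent.Y315.CF

variable {a b g p q : ℕ}

lemma cosC_eq (x : UnitAddCircle) : cosC x = Real.cos (2 * Real.pi * ‖x‖) := by
  obtain ⟨t, rfl⟩ := QuotientAddGroup.mk_surjective x
  have ht : (QuotientAddGroup.mk t : UnitAddCircle) = ((t : ℝ) : UnitAddCircle) := rfl
  rw [ht, cosC_coe, UnitAddCircle.norm_eq]
  have : 2 * Real.pi * |t - round t| = |2 * Real.pi * (t - round t)| := by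
    rw [abs_mul, abs_of_pos (by positivity : 0 < 2 * Real.pi)]
  rw [this, Real.cos_abs]
  have : 2 * Real.pi * (t - round t) = 2 * Real.pi * t - (round t : ℤ) * (2 * Real.pi) := by ring
  rw [this, Real.cos_sub_int_mul_two_pi]

lemma cosC_cont : Continuous cosC := by unfold cosC; fun_prop

lemma corner (hg : 0 < g) {k : ℤ} {x : UnitAddCircle} (h : ‖x - mid g k‖ = 1 / (2 * g)) :
    g • x = 0 := by
  obtain ⟨t, rfl⟩ := QuotientAddGroup.mk_surjective x
  have ht : (QuotientAddGroup.mk t : UnitAddCircle) = ((t : ℝ) : UnitAddCircle) := rfl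
  rw [ht] at h ⊢
  have hg' : (0 : ℝ) < g := by exact_mod_cast hg
  unfold mid at h
  rw [← AddCircle.coe_sub, UnitAddCircle.norm_eq] at h
  set n := round (t - (2 * k + 1) / (2 * g))
  rw [nsmul_coe, coe_eq_zero]
  have hpos : 0 ≤ 1 / (2 * (g : ℝ)) := by positivity
  rcases (abs_eq hpos).1 h with h1 | h1
  · refine ⟨k + 1 + g * n, ?_⟩
    have : t = 1 / (2 * g) + (2 * k + 1) / (2 * g) + n := by linarith
    rw [this]; push_cast; field_simp; ring
  · refine ⟨k + g * n, ?_⟩
    have : t = -(1 / (2 * g)) + (2 * k + 1) / (2 * g) + n := by linarith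
    rw [this]; push_cast; field_simp; ring

lemma Ar.g4 (A : Ar a b g p q) (h : a + b < g) : (4 : ℝ) ≤ g := by
  have h1 := A.ha
  have h2 := A.hab
  exact_mod_cast (by omega : 4 ≤ g)

lemma Ar.gpos (A : Ar a b g p q) : 0 < g := by
  have h1 := A.ha
  have h3 := A.hg
  omega

/-- **Cosines.** -/
theorem key_cos (A : Ar a b g p q) (h : a + b < g) (t : UnitAddCircle) : ∃ z : UnitAddCircle,
    g • z = 0 ∧ ‖z - t‖ ≤ 1 / (2 * g) ∧ ∀ μ : Measure UnitAddCircle, IsProbabilityMeasure μ →
      MeasurePreserving (fun x => p • x) μ μ → MeasurePreserving (fun x => q • x) μ μ →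
      ∫ x, cosC (x - t) ∂μ ≤ cosC (z - t) ∧
        (∫ x, cosC (x - t) ∂μ = cosC (z - t) → ∀ᵐ x ∂μ, g • x = 0) := by
  obtain ⟨k, z, hgz, hle, hzm, heq⟩ := nearest A.gpos t
  have hg4 := A.g4 h
  have hpi := Real.pi_pos
  set m := ‖z - t‖ with hm
  have hm0 : 0 ≤ m := norm_nonneg _
  have hmt : 0 ≤ ‖mid g k - t‖ := norm_nonneg _
  have hmw : m ≤ 1 / (2 * g) := by linarith
  have hm8 : m ≤ 1 / 8 := by
    refine hmw.trans ?_
    rw [div_le_div_iff₀ (by positivity) (by norm_num)]; linarith
  set u := 2 * Real.pi * m with hu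
  have hu0 : 0 ≤ u := by positivity
  have hu4 : u ≤ Real.pi / 4 := by rw [hu]; nlinarith
  have hsin : 0 ≤ Real.sin u := Real.sin_nonneg_of_nonneg_of_le_pi hu0 (by linarith)
  refine ⟨z, hgz, hmw, fun μ hμ hp hq => ?_⟩
  set P : UnitAddCircle → ℝ := fun x =>
    Real.cos u - Real.sin u * (2 * Real.pi * ‖x - t‖ - u) - cosC (x - t) with hP
  have hcc : Continuous (fun x : UnitAddCircle => cosC (x - t)) := cosC_cont.comp (by fun_prop)
  have hnt : Continuous (fun x : UnitAddCircle => ‖x - t‖) := by fun_prop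
  have hPc : Continuous P := by
    rw [hP]
    exact (continuous_const.sub (continuous_const.mul
      ((continuous_const.mul hnt).sub continuous_const))).sub hcc
  have hb : ∀ x : UnitAddCircle, 0 ≤ 2 * Real.pi * ‖x - t‖ ∧ 2 * Real.pi * ‖x - t‖ ≤ Real.pi := by
    intro x
    have h1 := norm_nonneg (x - t)
    have h2 := norm_le_half (x - t)
    constructor
    · positivity
    · nlinarith
  have hP0 : ∀ x, 0 ≤ P x := by
    intro x
    have := cos_le_tangent hu0 hu4 (hb x).1 (hb x).2
    simp only [hP, cosC_eq]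
    linarith
  have hPi : ∫ x, P x ∂μ = Real.cos u - Real.sin u * (2 * Real.pi * ∫ x, ‖x - t‖ ∂μ - u)
      - ∫ x, cosC (x - t) ∂μ := by
    simp only [hP]
    rw [integral_sub, integral_sub, integral_const_mul, integral_sub, integral_const_mul]
    · simp
    · exact int_cont (by fun_prop)
    · exact integrable_const _
    · exact integrable_const _
    · exact int_cont (by fun_prop)
    · exact int_cont (by fun_prop)
    · exact int_cont hcc
  have hmean := mean_dist A h hle hp hq
  have hzc : cosC (z - t) = Real.cos u := by rw [cosC_eq]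
  have hge : 0 ≤ Real.sin u * (2 * Real.pi * ∫ x, ‖x - t‖ ∂μ - u) := by
    apply mul_nonneg hsin
    rw [hu]
    have := mul_le_mul_of_nonneg_left hmean (by positivity : 0 ≤ 2 * Real.pi)
    linarith
  have hP1 := integral_nonneg (μ := μ) (f := P) hP0
  rw [hzc]
  refine ⟨by linarith, fun he => ?_⟩
  have hz0 : ∫ x, P x ∂μ = 0 := le_antisymm (by rw [hPi, he]; linarith) hP1
  rw [integral_eq_zero_iff_of_nonneg hP0 (int_cont hPc)] at hz0
  have hae : ∀ᵐ x ∂μ, ‖x - t‖ = m := by
    filter_upwards [hz0] with x hx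
    by_contra hne
    have hne' : 2 * Real.pi * ‖x - t‖ ≠ u := by
      intro h5
      rw [hu] at h5
      exact hne (mul_left_cancel₀ (by positivity : (2 * Real.pi) ≠ 0) h5)
    have h6 := cos_lt_tangent hu0 hu4 (hb x).1 (hb x).2 hne'
    have h7 : P x = 0 := hx
    simp only [hP, cosC_eq] at h7
    linarith
  have hD : ∫ x, D g (mid g k) x ∂μ = 0 := by
    rw [integral_eq_zero_iff_of_nonneg (D_nonneg g (mid g k)) (int_cont (D_cont g _))]
    filter_upwards [hae] with x hx
    show D g (mid g k) x = 0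
    unfold D
    apply max_eq_right
    have : ‖x - mid g k‖ ≤ ‖x - t‖ + ‖mid g k - t‖ := by
      calc ‖x - mid g k‖ = ‖(x - t) - (mid g k - t)‖ := by congr 1; abel
        _ ≤ _ := norm_sub_le _ _
    linarith
  have hW : ∫ x, W g (mid g k) x ∂μ = 0 := by
    have h8 := integral_star A k hp hq
    rw [hD, mul_zero] at h8
    have h9 : 0 ≤ ∫ x, W g (mid g k) x ∂μ := integral_nonneg (W_nonneg g _)
    nlinarith
  rw [integral_eq_zero_iff_of_nonneg (W_nonneg g (mid g k)) (int_cont (W_cont g _))] at hW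
  rw [integral_eq_zero_iff_of_nonneg (D_nonneg g (mid g k)) (int_cont (D_cont g _))] at hD
  filter_upwards [hW, hD] with x hx hx'
  apply corner A.gpos (k := k)
  have h1 := D_sub_W g (mid g k) x
  have h2 : W g (mid g k) x = 0 := hx
  have h3 : D g (mid g k) x = 0 := hx'
  linarith

lemma fixed_of (A : Ar a b g p q) {x : UnitAddCircle} (h : g • x = 0) : p • x = x ∧ q • x = x :=
  ⟨nsmul_eq_self_of A.hp h, nsmul_eq_self_of A.hq h⟩

lemma root_of {z : UnitAddCircle} (h : g • z = 0) : (fourier 1 z : ℂ) ^ g = 1 := by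
  rw [← fourier_nsmul', h]; simp

lemma roots_finite (hg : 0 < g) : Set.Finite {z : ℂ | z ^ g = 1} := by
  have : {z : ℂ | z ^ g = 1} ⊆ ((Polynomial.nthRoots g (1 : ℂ)).toFinset : Set ℂ) := by
    intro z hz
    simp only [Finset.mem_coe, Multiset.mem_toFinset]
    rw [Polynomial.mem_nthRoots hg]
    exact hz
  exact (Finset.finite_toSet _).subset this

/-- **The polygon.** -/
theorem region (A : Ar a b g p q) (h : a + b < g) :
    Coef p q = convexHull ℝ {z : ℂ | z ^ g = 1} := by
  apply Set.Subset.antisymm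
  · rintro c ⟨μ, hμ, hμp, hμq, rfl⟩
    by_contra hc
    obtain ⟨L, u, hL1, hL2⟩ := geometric_hahn_banach_closed_point (convex_convexHull ℝ _)
      (Set.Finite.isClosed_convexHull ℝ (roots_finite A.gpos)) hc
    obtain ⟨r, t, hr, hrt⟩ := functional_form L
    obtain ⟨z, hgz, -, hz⟩ := key_cos A h t
    have h1 := (hz μ hμ hμp hμq).1
    have h2 : L (∫ x, fourier 1 x ∂μ) = r * ∫ x, cosC (x - t) ∂μ := by
      rw [← ContinuousLinearMap.integral_comp_comm L (fourier_integrable μ 1)]
      rw [← integral_const_mul]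
      exact integral_congr_ae (Filter.Eventually.of_forall hrt)
    have h3 : L (fourier 1 z) < u := hL1 _ (subset_convexHull ℝ _ (root_of hgz))
    rw [h2] at hL2
    rw [hrt] at h3
    have := mul_le_mul_of_nonneg_left h1 hr
    linarith
  · apply convexHull_min _ (coef_convex p q)
    intro z hz
    exact root_mem A.gpos.ne' A.hp A.hq hz

/-- The disc of radius `cos (π / g)` lies in the polygon. -/
lemma disc_subset (A : Ar a b g p q) (h : a + b < g) {c : ℂ}
    (hc : ‖c‖ < Real.cos (Real.pi / g)) : c ∈ convexHull ℝ {z : ℂ | z ^ g = 1} := by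
  by_contra hn
  obtain ⟨L, u, hL1, hL2⟩ := geometric_hahn_banach_closed_point (convex_convexHull ℝ _)
    (Set.Finite.isClosed_convexHull ℝ (roots_finite A.gpos)) hn
  obtain ⟨r, t, hr, hrt⟩ := functional_form L
  obtain ⟨k, z, hgz, hle, hzm, heq⟩ := nearest A.gpos t
  have hg4 := A.g4 h
  have hpi := Real.pi_pos
  have h3 : L (fourier 1 z) < u := hL1 _ (subset_convexHull ℝ _ (root_of hgz))
  rw [hrt, cosC_eq] at h3
  have h4 : Real.cos (Real.pi / g) ≤ Real.cos (2 * Real.pi * ‖z - t‖) := by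
    apply Real.cos_le_cos_of_nonneg_of_le_pi (by positivity)
    · rw [div_le_iff₀ (by linarith)]; nlinarith
    · have h5 : ‖z - t‖ ≤ 1 / (2 * g) := by have := norm_nonneg (mid g k - t); linarith
      calc 2 * Real.pi * ‖z - t‖ ≤ 2 * Real.pi * (1 / (2 * g)) := by gcongr
        _ = Real.pi / g := by field_simp
  -- `L c ≤ r ‖c‖`
  have h6 : L c ≤ r * ‖c‖ := by
    by_cases hc0 : c = 0
    · rw [hc0]; simp
    obtain ⟨y, hy⟩ := exists_angle (z := c / ‖c‖) (by
      rw [norm_div, Complex.norm_real, norm_norm, div_self (by simpa using hc0)])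
    have e : c = (‖c‖ : ℝ) • (fourier 1 y : ℂ) := by
      rw [hy, Complex.real_smul]
      have : (‖c‖ : ℂ) ≠ 0 := by exact_mod_cast (norm_ne_zero_iff.2 hc0)
      field_simp
    have h7 : L c = ‖c‖ * (r * cosC (y - t)) := by
      conv_lhs => rw [e]
      rw [map_smul, smul_eq_mul, hrt]
    rw [h7]
    have h8 : cosC (y - t) ≤ 1 := by rw [cosC_eq]; exact Real.cos_le_one _
    have h9 : r * cosC (y - t) ≤ r * 1 := mul_le_mul_of_nonneg_left h8 hr
    have := mul_le_mul_of_nonneg_left h9 (norm_nonneg c)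
    linarith
  have h7 : r * ‖c‖ ≤ r * Real.cos (2 * Real.pi * ‖z - t‖) :=
    mul_le_mul_of_nonneg_left (by linarith) hr
  linarith

/-- A measure whose first coefficient is not in the interior of the polygon is concentrated on the
common fixed points. -/
theorem boundary (A : Ar a b g p q) (h : a + b < g) {μ : Measure UnitAddCircle}
    [hμ : IsProbabilityMeasure μ]
    (hp : MeasurePreserving (fun x => p • x) μ μ) (hq : MeasurePreserving (fun x => q • x) μ μ)
    (hn : ∫ x, (fourier 1 x : ℂ) ∂μ ∉ interior (convexHull ℝ {z : ℂ | z ^ g = 1})) :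
    ∀ᵐ x ∂μ, g • x = 0 := by
  have hg4 := A.g4 h
  have hpi := Real.pi_pos
  set Q := convexHull ℝ {z : ℂ | z ^ g = 1} with hQ
  have hcos : 0 < Real.cos (Real.pi / g) := by
    apply Real.cos_pos_of_mem_Ioo
    constructor
    · have : 0 < Real.pi / g := by positivity
      linarith
    · rw [div_lt_div_iff₀ (by linarith) (by norm_num)]; nlinarith
  have hint : (interior Q).Nonempty := by
    refine ⟨0, ?_⟩
    rw [mem_interior]
    refine ⟨Metric.ball 0 (Real.cos (Real.pi / g)), ?_, Metric.isOpen_ball,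
      Metric.mem_ball_self hcos⟩
    intro c hc
    rw [mem_ball_zero_iff] at hc
    exact disc_subset A h hc
  have hconv : Convex ℝ Q := convex_convexHull ℝ _
  obtain ⟨L, hL⟩ := geometric_hahn_banach_open_point hconv.interior isOpen_interior hn
  have hL0 : L ≠ 0 := by
    rintro rfl
    obtain ⟨y, hy⟩ := hint
    have := hL y hy
    simp at this
  have hLQ : ∀ y ∈ Q, L y ≤ L (∫ x, (fourier 1 x : ℂ) ∂μ) := by
    intro y hy
    have h1 : y ∈ closure (interior Q) := by
      rw [hconv.closure_interior_eq_closure_of_nonempty_interior hint]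
      exact subset_closure hy
    have h2 : closure (interior Q) ⊆ {y | L y ≤ L (∫ x, (fourier 1 x : ℂ) ∂μ)} := by
      apply closure_minimal (fun y hy => (hL y hy).le)
      exact isClosed_le L.continuous continuous_const
    exact h2 h1
  obtain ⟨r, t, hr, hrt⟩ := functional_form L
  have hr0 : r ≠ 0 := by
    rintro rfl
    apply hL0
    ext c
    by_cases hc0 : c = 0
    · rw [hc0]; simp
    obtain ⟨y, hy⟩ := exists_angle (z := c / ‖c‖) (by
      rw [norm_div, Complex.norm_real, norm_norm, div_self (by simpa using hc0)])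
    have e : c = (‖c‖ : ℝ) • (fourier 1 y : ℂ) := by
      rw [hy, Complex.real_smul]
      have : (‖c‖ : ℂ) ≠ 0 := by exact_mod_cast (norm_ne_zero_iff.2 hc0)
      field_simp
    rw [e, map_smul, hrt]; simp
  have hrp : 0 < r := lt_of_le_of_ne hr (Ne.symm hr0)
  obtain ⟨z, hgz, -, hz⟩ := key_cos A h t
  obtain ⟨h1, h2⟩ := hz μ hμ hp hq
  apply h2
  apply le_antisymm h1
  have h3 := hLQ _ (subset_convexHull ℝ _ (root_of hgz))
  have h4 : L (∫ x, fourier 1 x ∂μ) = r * ∫ x, cosC (x - t) ∂μ := by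
    rw [← ContinuousLinearMap.integral_comp_comm L (fourier_integrable μ 1)]
    rw [← integral_const_mul]
    exact integral_congr_ae (Filter.Eventually.of_forall hrt)
  rw [h4, hrt] at h3
  exact le_of_mul_le_mul_left h3 hrp

end Pool.Agent.K3h90.FP
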