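import Mathlib

/-! # Smooth functions near a nondegenerate maximum: the inequality on the line -/

namespace Pool.Agent.K3h90.FP

/-- Quadratic increments near a maximum at `0`. -/
structure Inc (f : ℝ → ℝ) (K η δ : ℝ) : Prop where
  hK : 0 < K
  up : ∀ u v, 0 ≤ u → u ≤ v → v ≤ δ → f u - f v ≤ (1 + η) * K * (v ^ 2 - u ^ 2) / 2
  lo : ∀ u v, 0 ≤ u → u ≤ v → v ≤ δ → (1 - η) * K * (v ^ 2 - u ^ 2) / 2 ≤ f u - f v
  up' : ∀ u v, 0 ≤ u → u ≤ v → v ≤ δ → f (-u) - f (-v) ≤ (1 + η) * K * (v ^ 2 - u ^ 2) / 2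
  lo' : ∀ u v, 0 ≤ u → u ≤ v → v ≤ δ → (1 - η) * K * (v ^ 2 - u ^ 2) / 2 ≤ f (-u) - f (-v)

variable {f : ℝ → ℝ} {K η δ : ℝ}

lemma Inc.neg (I : Inc f K η δ) : Inc (fun u => f (-u)) K η δ where
  hK := I.hK
  up := I.up'
  lo := I.lo'
  up' := fun u v h1 h2 h3 => by simpa using I.up u v h1 h2 h3
  lo' := fun u v h1 h2 h3 => by simpa using I.lo u v h1 h2 h3

lemma ratio (I : Inc f K η δ) (h0 : 0 ≤ η) (h8 : η ≤ 1 / 8) {T₀ T₁ : ℝ} (hT₀ : 0 ≤ T₀)
    (hT₁ : 0 ≤ T₁) (hd₀ : T₀ ≤ δ) (hd₁ : T₁ ≤ δ) (hmax : f T₁ ≤ f (-T₀)) :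
    T₀ ≤ (1 + 2 * η) * T₁ := by
  have e1 := I.lo' 0 T₀ le_rfl hT₀ hd₀
  have e2 := I.up 0 T₁ le_rfl hT₁ hd₁
  rw [neg_zero] at e1
  have hK := I.hK
  have e3 : K * ((1 - η) * T₀ ^ 2) ≤ K * ((1 + η) * T₁ ^ 2) := by nlinarith
  have e4 : (1 - η) * T₀ ^ 2 ≤ (1 + η) * T₁ ^ 2 := le_of_mul_le_mul_left e3 hK
  by_contra hn
  push Not at hn
  have h1 : ((1 + 2 * η) * T₁) ^ 2 < T₀ ^ 2 := by
    have : 0 ≤ (1 + 2 * η) * T₁ := by positivity
    exact pow_lt_pow_left₀ hn this (by norm_num)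
  have h2 : (1 - η) * ((1 + 2 * η) * T₁) ^ 2 < (1 - η) * T₀ ^ 2 :=
    mul_lt_mul_of_pos_left h1 (by linarith)
  have h3 : (1 + η) * T₁ ^ 2 ≤ (1 - η) * ((1 + 2 * η) * T₁) ^ 2 := by
    have : 0 ≤ T₁ ^ 2 * (η * (2 - 4 * η ^ 2)) := by
      apply mul_nonneg (sq_nonneg _) (mul_nonneg h0 _)
      nlinarith
    nlinarith
  linarith

/-- **The inequality near the maximum.** -/
theorem near_line (I : Inc f K η δ) (h0 : 0 ≤ η) (h8 : η ≤ 1 / 8) {T₀ T₁ w s : ℝ} (hT₀ : 0 ≤ T₀)
    (hT₁ : 0 ≤ T₁) (hw : T₀ + T₁ = 2 * w) (hmax : f T₁ ≤ f (-T₀)) (hδ : 2 * w ≤ δ)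
    (hs : |s - T₀| ≤ δ) :
    f (s - T₀) - f (-T₀) ≤ (1 + 8 * η) * K * T₀ * max (w - |s - w|) 0
      - (1 - 3 * η) * K * T₀ * max (|s - w| - w) 0 := by
  have hK := I.hK
  have hw0 : 0 ≤ w := by linarith
  have hd₀ : T₀ ≤ δ := by linarith
  have hd₁ : T₁ ≤ δ := by linarith
  have hr := ratio I h0 h8 hT₀ hT₁ hd₀ hd₁ hmax
  have hs1 := abs_le.1 hs
  have hKT : 0 ≤ K * T₀ := by positivity
  have hKT₁ : 0 ≤ K * T₁ := by positivity
  rcases le_total s 0 with c1 | c1
  · -- left of the arc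
    have e1 : |s - w| = w - s := by rw [abs_of_nonpos (by linarith)]; ring
    rw [e1, max_eq_right (by linarith), max_eq_left (by linarith)]
    have e2 := I.lo' T₀ (T₀ - s) hT₀ (by linarith) (by linarith [hs1.1])
    rw [show -(T₀ - s) = s - T₀ by ring] at e2
    have e3 : 0 ≤ K * (-s) * (-s) * (1 - η) := by
      apply mul_nonneg _ (by linarith)
      have : 0 ≤ -s := by linarith
      positivity
    have e4 : 0 ≤ K * T₀ * (-s) * (2 * η) := by
      have : 0 ≤ -s := by linarith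
      positivity
    nlinarith
  rcases le_total s w with c2 | c2
  · -- left half of the arc
    have e1 : |s - w| = w - s := by rw [abs_of_nonpos (by linarith)]; ring
    rw [e1, show w - (w - s) = s by ring, max_eq_left c1, show w - s - w = -s by ring,
      max_eq_right (by linarith), mul_zero, sub_zero]
    have g1 : (1 + η) * (K * T₀) * s ≤ (1 + 8 * η) * K * T₀ * s := by
      have : 0 ≤ 7 * η * (K * T₀) * s := by positivity
      nlinarith
    rcases le_total s T₀ with c3 | c3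
    · have e2 := I.up' (T₀ - s) T₀ (by linarith) (by linarith) hd₀
      rw [show -(T₀ - s) = s - T₀ by ring] at e2
      have e3 : 0 ≤ (1 + η) * K * s ^ 2 := by positivity
      nlinarith
    · have e2 := I.lo 0 (s - T₀) le_rfl (by linarith) (by linarith [hs1.2])
      have e3 := I.up' 0 T₀ le_rfl hT₀ hd₀
      rw [neg_zero] at e3
      have e4 : 0 ≤ (1 - η) * K * ((s - T₀) ^ 2 - 0 ^ 2) / 2 := by
        have h1 : 0 ≤ 1 - η := by linarith
        have h2 : (s - T₀) ^ 2 - 0 ^ 2 = (s - T₀) ^ 2 := by ring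
        rw [h2]
        positivity
      have e5 : (1 + η) * K * (T₀ ^ 2 - 0 ^ 2) / 2 ≤ (1 + η) * (K * T₀) * s := by
        have h1 : 0 ≤ (1 + η) * (K * T₀) * (s - T₀) := by
          apply mul_nonneg (by positivity) (by linarith)
        have h2 : 0 ≤ (1 + η) * K * T₀ ^ 2 := by positivity
        nlinarith
      linarith
  rcases le_total s (2 * w) with c3 | c3
  · -- right half of the arc
    have e1 : |s - w| = s - w := abs_of_nonneg (by linarith)
    rw [e1, show w - (s - w) = 2 * w - s by ring, max_eq_left (by linarith),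
      show s - w - w = s - 2 * w by ring, max_eq_right (by linarith), mul_zero, sub_zero]
    have hr0 : 0 ≤ 2 * w - s := by linarith
    rcases le_total T₀ ((1 - 2 * η) * w) with c4 | c4
    · have hTw : T₀ ≤ w := by nlinarith
      have e2 := I.lo 0 (s - T₀) le_rfl (by linarith) (by linarith [hs1.2])
      have e3 := I.up' 0 T₀ le_rfl hT₀ hd₀
      rw [neg_zero] at e3
      have e4 : f (s - T₀) - f (-T₀) ≤ K / 2 * ((1 + η) * T₀ ^ 2 - (1 - η) * (s - T₀) ^ 2) := by
        nlinarith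
      have e5 : (1 + η) * T₀ ^ 2 - (1 - η) * (s - T₀) ^ 2 ≤ 2 * T₀ * (2 * w - s) := by
        have h1 : 0 < 1 - η := by linarith
        have h2 : 0 ≤ 4 * (1 - η) * w - T₀ * (4 - 2 * η - η ^ 2) := by
          have h3 : T₀ * (4 - 2 * η - η ^ 2) ≤ (1 - 2 * η) * w * (4 - 2 * η - η ^ 2) := by
            apply mul_le_mul_of_nonneg_right c4
            nlinarith
          have h4 : 0 ≤ w * (η * (6 - 3 * η - 2 * η ^ 2)) := by
            apply mul_nonneg hw0 (mul_nonneg h0 _)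
            nlinarith
          nlinarith
        have h3 : (1 - η) * (2 * T₀ * (2 * w - s) - ((1 + η) * T₀ ^ 2 - (1 - η) * (s - T₀) ^ 2))
            = ((1 - η) * (s - T₀) - T₀) ^ 2 + T₀ * (4 * (1 - η) * w - T₀ * (4 - 2 * η - η ^ 2)) := by
          ring
        have h4 : 0 ≤ (1 - η) * (2 * T₀ * (2 * w - s)
            - ((1 + η) * T₀ ^ 2 - (1 - η) * (s - T₀) ^ 2)) := by
          rw [h3]
          have := mul_nonneg hT₀ h2
          positivity
        have h5 := nonneg_of_mul_nonneg_right h4 h1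
        linarith
      have e6 : K / 2 * ((1 + η) * T₀ ^ 2 - (1 - η) * (s - T₀) ^ 2)
          ≤ K / 2 * (2 * T₀ * (2 * w - s)) := mul_le_mul_of_nonneg_left e5 (by positivity)
      have e7 : 0 ≤ 8 * η * (K * T₀) * (2 * w - s) := by positivity
      nlinarith
    · have hT1 : (1 + η) * T₁ ≤ (1 + 8 * η) * T₀ := by
        have h1 : T₁ ≤ (1 + 2 * η) * w := by linarith
        have h2 : (1 + η) * T₁ ≤ (1 + η) * ((1 + 2 * η) * w) :=
          mul_le_mul_of_nonneg_left h1 (by linarith)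
        have h3 : (1 + 8 * η) * ((1 - 2 * η) * w) ≤ (1 + 8 * η) * T₀ :=
          mul_le_mul_of_nonneg_left c4 (by linarith)
        have h4 : 0 ≤ w * (η * (3 - 18 * η)) := by
          apply mul_nonneg hw0 (mul_nonneg h0 _)
          linarith
        nlinarith
      have hfin : (1 + η) * K * T₁ * (2 * w - s) ≤ (1 + 8 * η) * K * T₀ * (2 * w - s) := by
        apply mul_le_mul_of_nonneg_right _ hr0
        nlinarith
      refine le_trans ?_ hfin
      rcases le_total T₀ s with c5 | c5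
      · have e2 := I.up (s - T₀) T₁ (by linarith) (by linarith) hd₁
        have e3 : (1 + η) * K * (T₁ ^ 2 - (s - T₀) ^ 2) / 2
            ≤ (1 + η) * K * T₁ * (2 * w - s) := by
          have h1 : T₁ ^ 2 - (s - T₀) ^ 2 = (2 * w - s) * (T₁ + (s - T₀)) := by
            have : T₁ = 2 * w - T₀ := by linarith
            rw [this]; ring
          rw [h1]
          have h2 : (2 * w - s) * (T₁ + (s - T₀)) ≤ (2 * w - s) * (2 * T₁) :=
            mul_le_mul_of_nonneg_left (by linarith) hr0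
          have h3 : 0 ≤ (1 + η) * K := by positivity
          nlinarith
        linarith
      · have e2 := I.lo' 0 (T₀ - s) le_rfl (by linarith) (by linarith [hs1.1])
        rw [neg_zero, show -(T₀ - s) = s - T₀ by ring] at e2
        have e3 := I.up 0 T₁ le_rfl hT₁ hd₁
        have e4 : 0 ≤ (1 - η) * K * ((T₀ - s) ^ 2 - 0 ^ 2) / 2 := by
          have h1 : 0 ≤ 1 - η := by linarith
          have h2 : (T₀ - s) ^ 2 - 0 ^ 2 = (T₀ - s) ^ 2 := by ring
          rw [h2]
          positivity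
        have e5 : (1 + η) * K * (T₁ ^ 2 - 0 ^ 2) / 2 ≤ (1 + η) * K * T₁ * (2 * w - s) := by
          have h1 : T₁ ≤ 2 * w - s := by linarith
          have h2 : 0 ≤ (1 + η) * (K * T₁) := by positivity
          have h3 := mul_le_mul_of_nonneg_left h1 h2
          have h4 : 0 ≤ (1 + η) * K * T₁ ^ 2 := by positivity
          nlinarith
        linarith
  · -- right of the arc
    have e1 : |s - w| = s - w := abs_of_nonneg (by linarith)
    rw [e1, show w - (s - w) = 2 * w - s by ring, max_eq_right (by linarith),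
      show s - w - w = s - 2 * w by ring, max_eq_left (by linarith), mul_zero, zero_sub]
    have hr0 : 0 ≤ s - 2 * w := by linarith
    have e2 := I.lo T₁ (s - T₀) hT₁ (by linarith) (by linarith [hs1.2])
    have e3 : (1 - η) * K * T₁ * (s - 2 * w) ≤ (1 - η) * K * ((s - T₀) ^ 2 - T₁ ^ 2) / 2 := by
      have h1 : (s - T₀) ^ 2 - T₁ ^ 2 = (s - 2 * w) * (T₁ + (s - T₀)) := by
        have : T₁ = 2 * w - T₀ := by linarith
        rw [this]; ring
      rw [h1]
      have h2 : (s - 2 * w) * (2 * T₁) ≤ (s - 2 * w) * (T₁ + (s - T₀)) :=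
        mul_le_mul_of_nonneg_left (by linarith) hr0
      have h3 : 0 ≤ (1 - η) * K := mul_nonneg (by linarith) hK.le
      nlinarith
    have e4 : (1 - 3 * η) * K * T₀ * (s - 2 * w) ≤ (1 - η) * K * T₁ * (s - 2 * w) := by
      apply mul_le_mul_of_nonneg_right _ hr0
      have h1 : (1 - 3 * η) * T₀ ≤ (1 - 3 * η) * ((1 + 2 * η) * T₁) :=
        mul_le_mul_of_nonneg_left hr (by linarith)
      have h2 : 0 ≤ η ^ 2 * T₁ := by positivity
      nlinarith
    linarith

end Pool.Agent.K3h90.FP
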