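import Pool.Agent.K3h90.FP.SmoA
import Pool.Agent.K3h90.FP.Poly

/-! # Smooth functions: the inequality on the circle and its integral -/

namespace Pool.Agent.K3h90.FP

open MeasureTheory Pool.Agent.Y315.CF

lemma norm_coe_of {u : ℝ} (hu : |u| ≤ 1 / 2) : ‖((u : ℝ) : UnitAddCircle)‖ = |u| := by
  rw [AddCircle.norm_coe_eq_abs_iff _ one_ne_zero]
  simpa using hu

lemma small_lift (y : UnitAddCircle) : ∃ u : ℝ, y = ((u : ℝ) : UnitAddCircle) ∧ |u| = ‖y‖ ∧
    |u| ≤ 1 / 2 := by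
  obtain ⟨t, rfl⟩ := QuotientAddGroup.mk_surjective y
  have ht : (QuotientAddGroup.mk t : UnitAddCircle) = ((t : ℝ) : UnitAddCircle) := rfl
  rw [ht]
  refine ⟨t - round t, ?_, ?_, abs_sub_round t⟩
  · rw [coe_eq_coe]
    exact ⟨round t, by ring⟩
  · rw [UnitAddCircle.norm_eq]

theorem circ {G : UnitAddCircle → ℝ} {K η δ κ : ℝ}
    (I : Inc (fun u : ℝ => G (u : UnitAddCircle)) K η δ) (h0 : 0 ≤ η) (h8 : η ≤ 1 / 8)
    (hδ : δ ≤ 1 / 4) (hfar : ∀ y : UnitAddCircle, δ ≤ ‖y‖ → G y ≤ G 0 - κ) {g : ℕ} (hg : 4 ≤ g)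
    (hgδ : 1 / (g : ℝ) ≤ δ) (hκ : 2 * K ≤ κ * g) (t : UnitAddCircle) :
    ∃ (k : ℤ) (z : UnitAddCircle), g • z = 0 ∧ ∀ x : UnitAddCircle, G (x - t) - G (z - t) ≤
      (1 + 8 * η) * K * ‖z - t‖ * W g (mid g k) x
        - (1 - 3 * η) * K * ‖z - t‖ * D g (mid g k) x := by
  obtain ⟨τ, rfl⟩ := QuotientAddGroup.mk_surjective t
  have ht : (QuotientAddGroup.mk τ : UnitAddCircle) = ((τ : ℝ) : UnitAddCircle) := rfl
  rw [ht]
  have hK := I.hK
  have hg4 : (4 : ℝ) ≤ g := by exact_mod_cast hg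
  have hg' : (0 : ℝ) < g := by linarith
  set k : ℤ := ⌊(g : ℝ) * τ⌋ with hk
  have hk1 : (k : ℝ) ≤ g * τ := Int.floor_le _
  have hk2 : (g : ℝ) * τ < k + 1 := Int.lt_floor_add_one _
  obtain ⟨w, hw⟩ : ∃ w : ℝ, w = 1 / (2 * g) := ⟨_, rfl⟩
  have hw2 : 2 * w = 1 / g := by rw [hw]; field_simp
  have hw8 : w ≤ 1 / 8 := by
    rw [hw, div_le_div_iff₀ (by positivity) (by norm_num)]; linarith
  have hw0 : 0 < w := by rw [hw]; positivity
  obtain ⟨T₀, hT₀⟩ : ∃ T₀ : ℝ, T₀ = τ - k / g := ⟨_, rfl⟩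
  obtain ⟨T₁, hT₁⟩ : ∃ T₁ : ℝ, T₁ = (k + 1) / g - τ := ⟨_, rfl⟩
  have hT00 : 0 ≤ T₀ := by
    have : (k : ℝ) / g ≤ τ := by rw [div_le_iff₀ hg']; linarith
    linarith
  have hT10 : 0 ≤ T₁ := by
    have : τ ≤ (k + 1) / g := by rw [le_div_iff₀ hg']; linarith
    linarith
  have hsum : T₀ + T₁ = 2 * w := by rw [hw2, hT₀, hT₁]; field_simp; ring
  have hgz : ∀ i : ℤ, g • (((i : ℝ) / g : ℝ) : UnitAddCircle) = 0 := by
    intro i
    rw [nsmul_coe, coe_eq_zero]
    exact ⟨i, by field_simp⟩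
  have hmid : mid g k = ((k / g + w : ℝ) : UnitAddCircle) := by
    unfold mid
    congr 1
    rw [hw]; field_simp
  obtain ⟨f, hf⟩ : ∃ f : ℝ → ℝ, f = fun u : ℝ => G (u : UnitAddCircle) := ⟨_, rfl⟩
  have hfu : ∀ u : ℝ, G (u : UnitAddCircle) = f u := fun u => by rw [hf]
  rw [← hf] at I
  have hfar' : ∀ (x : UnitAddCircle) (T v : ℝ), 0 ≤ T → T ≤ 2 * w →
      f 0 - v ≤ (1 + η) * K * T ^ 2 / 2 → δ ≤ ‖x - ((τ : ℝ) : UnitAddCircle)‖ →
      G (x - ((τ : ℝ) : UnitAddCircle)) - v ≤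
        (1 + 8 * η) * K * T * W g (mid g k) x - (1 - 3 * η) * K * T * D g (mid g k) x := by
    intro x T v hT hTw hv hx
    have e1 := hfar _ hx
    have e2 : G 0 = f 0 := by rw [← hfu]; simp
    have e3 : 0 ≤ (1 + 8 * η) * K * T * W g (mid g k) x := by
      have := W_nonneg g (mid g k) x
      positivity
    have e4 : D g (mid g k) x ≤ 1 / 2 := by
      unfold D
      apply max_le _ (by norm_num)
      have := norm_le_half (x - mid g k)
      have : 0 < 1 / (2 * (g : ℝ)) := by positivity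
      linarith
    have e5 := D_nonneg g (mid g k) x
    have e6 : (1 - 3 * η) * K * T * D g (mid g k) x ≤ K * T * (1 / 2) := by
      have h1 : 0 ≤ K * T := by positivity
      have h2 : K * T * D g (mid g k) x ≤ K * T * (1 / 2) := mul_le_mul_of_nonneg_left e4 h1
      have h3 : 0 ≤ 3 * η * (K * T) * D g (mid g k) x := by positivity
      nlinarith
    have e7 : K * T ≤ κ / 2 := by
      have h1 : K * T ≤ K * (2 * w) := mul_le_mul_of_nonneg_left hTw hK.le
      have h2 : K * (2 * w) ≤ κ / 2 := by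
        rw [hw2, mul_one_div, div_le_iff₀ hg']; linarith
      linarith
    have e8 : (1 + η) * K * T ^ 2 / 2 ≤ K * T * (1 / 4) := by
      have h1 : T ≤ 1 / 4 := by linarith
      have h2 : 0 ≤ K * T := by positivity
      have h3 : (1 + η) * T ≤ 1 / 2 := by nlinarith
      nlinarith
    have e9 : 0 ≤ K * T := by positivity
    rw [e2] at e1
    linarith
  -- the near case
  have hnear : ∀ u : ℝ, |u| ≤ δ → ‖((τ + u : ℝ) : UnitAddCircle) - mid g k‖ = |u + T₀ - w| := by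
    intro u hu
    rw [hmid, ← AddCircle.coe_sub]
    have e : τ + u - (k / g + w) = u + T₀ - w := by rw [hT₀]; ring
    rw [e, norm_coe_of]
    have h1 := abs_le.1 hu
    rw [abs_le]
    constructor <;> linarith [h1.1, h1.2]
  have hz0 : (((k : ℝ) / g : ℝ) : UnitAddCircle) - ((τ : ℝ) : UnitAddCircle)
      = ((-T₀ : ℝ) : UnitAddCircle) := by
    rw [← AddCircle.coe_sub]; congr 1; rw [hT₀]; ring
  have hz1 : ((((k + 1 : ℤ) : ℝ) / g : ℝ) : UnitAddCircle) - ((τ : ℝ) : UnitAddCircle)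
      = ((T₁ : ℝ) : UnitAddCircle) := by
    rw [← AddCircle.coe_sub]; congr 1; rw [hT₁]; push_cast; ring
  have hn0 : ‖((-T₀ : ℝ) : UnitAddCircle)‖ = T₀ := by
    rw [norm_coe_of (by rw [abs_neg, abs_of_nonneg hT00]; linarith), abs_neg, abs_of_nonneg hT00]
  have hn1 : ‖((T₁ : ℝ) : UnitAddCircle)‖ = T₁ := by
    rw [norm_coe_of (by rw [abs_of_nonneg hT10]; linarith), abs_of_nonneg hT10]
  have hδw : 2 * w ≤ δ := by rw [hw2]; exact hgδ
  rcases le_total (f T₁) (f (-T₀)) with hc | hc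
  · refine ⟨k, _, hgz k, fun x => ?_⟩
    rw [hz0, hn0, hfu]
    rcases lt_or_ge ‖x - ((τ : ℝ) : UnitAddCircle)‖ δ with h | h
    · obtain ⟨u, hu1, hu2, hu3⟩ := small_lift (x - ((τ : ℝ) : UnitAddCircle))
      have hx : x = ((τ + u : ℝ) : UnitAddCircle) := by
        rw [AddCircle.coe_add, ← hu1]; abel
      have huδ : |u| ≤ δ := by rw [hu2]; exact h.le
      have h1 := near_line I h0 h8 hT00 hT10 hsum hc hδw (s := u + T₀) (by simpa using huδ)
      rw [hu1, hfu]
      unfold W D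
      rw [hx, hnear u huδ, ← hw]
      simpa using h1
    · apply hfar' x T₀ (f (-T₀)) hT00 (by linarith) _ h
      have := I.up' 0 T₀ le_rfl hT00 (by linarith)
      simpa using this
  · refine ⟨k, _, hgz (k + 1), fun x => ?_⟩
    rw [hz1, hn1, hfu]
    rcases lt_or_ge ‖x - ((τ : ℝ) : UnitAddCircle)‖ δ with h | h
    · obtain ⟨u, hu1, hu2, hu3⟩ := small_lift (x - ((τ : ℝ) : UnitAddCircle))
      have hx : x = ((τ + u : ℝ) : UnitAddCircle) := by
        rw [AddCircle.coe_add, ← hu1]; abel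
      have huδ : |u| ≤ δ := by rw [hu2]; exact h.le
      have h1 := near_line I.neg h0 h8 hT10 hT00 (by linarith : T₁ + T₀ = 2 * w)
        (by simpa using hc) hδw (s := 2 * w - (u + T₀)) (by
          rw [show 2 * w - (u + T₀) - T₁ = -u by linarith, abs_neg]; exact huδ)
      rw [hu1, hfu]
      unfold W D
      rw [hx, hnear u huδ, ← hw]
      rw [show 2 * w - (u + T₀) - T₁ = -u by linarith,
        show 2 * w - (u + T₀) - w = -(u + T₀ - w) by ring, abs_neg] at h1
      simpa using h1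
    · apply hfar' x T₁ (f T₁) hT10 (by linarith) _ h
      have := I.up 0 T₁ le_rfl hT10 (by linarith)
      simpa using this

variable {a b g p q : ℕ}

/-- **Smooth functions, integrated.** -/
theorem smooth_core {G : UnitAddCircle → ℝ} (hG : Continuous G) (hmax : ∀ y, y ≠ 0 → G y < G 0)
    {K η δ κ : ℝ}
    (I : Inc (fun u : ℝ => G (u : UnitAddCircle)) K η δ) (h0 : 0 ≤ η) (h8 : η ≤ 1 / 8)
    (hδ : δ ≤ 1 / 4) (hfar : ∀ y : UnitAddCircle, δ ≤ ‖y‖ → G y ≤ G 0 - κ)
    (A : Ar a b g p q) (hg : 4 ≤ g)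
    (hgδ : 1 / (g : ℝ) ≤ δ) (hκ : 2 * K ≤ κ * g)
    (hab : (1 + 8 * η) * ((a : ℝ) + b) < (1 - 3 * η) * (g - 1)) (t : UnitAddCircle) :
    ∃ z : UnitAddCircle, g • z = 0 ∧ ∀ μ : Measure UnitAddCircle, IsProbabilityMeasure μ →
      MeasurePreserving (fun x => p • x) μ μ → MeasurePreserving (fun x => q • x) μ μ →
      ∫ x, G (x - t) ∂μ ≤ G (z - t) ∧
        (∫ x, G (x - t) ∂μ = G (z - t) → ∀ᵐ x ∂μ, g • x = 0) := by
  obtain ⟨k, z, hgz, hz⟩ := circ I h0 h8 hδ hfar hg hgδ hκ t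
  refine ⟨z, hgz, fun μ hμ hp hq => ?_⟩
  have hK := I.hK
  have hg4 : (4 : ℝ) ≤ g := by exact_mod_cast hg
  have hGt : Continuous (fun x : UnitAddCircle => G (x - t)) := hG.comp (by fun_prop)
  have cW := W_cont g (mid g k)
  have cD := D_cont g (mid g k)
  set T := ‖z - t‖ with hT
  have hT0 : 0 ≤ T := norm_nonneg _
  have e1 : ∫ x, (G (x - t) - G (z - t)) ∂μ ≤ ∫ x, ((1 + 8 * η) * K * T * W g (mid g k) x
      - (1 - 3 * η) * K * T * D g (mid g k) x) ∂μ := by
    apply integral_mono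
    · exact int_cont (hGt.sub continuous_const)
    · exact int_cont (by fun_prop)
    · exact hz
  rw [integral_sub (int_cont hGt) (integrable_const _), integral_sub (int_cont (by fun_prop))
    (int_cont (by fun_prop)), integral_const_mul, integral_const_mul] at e1
  simp only [integral_const, probReal_univ, smul_eq_mul, one_mul] at e1
  have e2 := integral_star A k hp hq
  set IW := ∫ x, W g (mid g k) x ∂μ with hIW
  set ID := ∫ x, D g (mid g k) x ∂μ with hID
  have hIW0 : 0 ≤ IW := integral_nonneg (W_nonneg g _)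
  have hID0 : 0 ≤ ID := integral_nonneg (D_nonneg g _)
  have e3 : ((g : ℝ) - 1) * (∫ x, G (x - t) ∂μ - G (z - t))
      ≤ -(K * T * ((1 - 3 * η) * (g - 1) - (1 + 8 * η) * (a + b)) * ID) := by
    have h1 : ((g : ℝ) - 1) * (∫ x, G (x - t) ∂μ - G (z - t)) ≤ ((g : ℝ) - 1) *
        ((1 + 8 * η) * K * T * IW - (1 - 3 * η) * K * T * ID) :=
      mul_le_mul_of_nonneg_left e1 (by linarith)
    have h2 : (1 + 8 * η) * K * T * (((g : ℝ) - 1) * IW) ≤ (1 + 8 * η) * K * T * ((a + b) * ID) :=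
      mul_le_mul_of_nonneg_left e2 (by positivity)
    nlinarith
  have hgap : 0 < (1 - 3 * η) * ((g : ℝ) - 1) - (1 + 8 * η) * (a + b) := by linarith
  have e4 : 0 ≤ K * T * ((1 - 3 * η) * ((g : ℝ) - 1) - (1 + 8 * η) * (a + b)) * ID := by positivity
  have e5 : ∫ x, G (x - t) ∂μ ≤ G (z - t) := by
    have h1 : ((g : ℝ) - 1) * (∫ x, G (x - t) ∂μ - G (z - t)) ≤ 0 := by linarith
    have h2 : (0 : ℝ) < g - 1 := by linarith
    have h3 : ∫ x, G (x - t) ∂μ - G (z - t) ≤ 0 := by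
      by_contra hcon
      push Not at hcon
      have := mul_pos h2 hcon
      linarith
    linarith
  refine ⟨e5, fun he => ?_⟩
  rcases hT0.eq_or_lt with h | h
  · -- `z = t`
    have hzt : z - t = 0 := by rw [← norm_eq_zero, ← hT]; exact h.symm
    have hle : ∀ x, G (x - t) ≤ G 0 := by
      intro x
      by_cases hx : x - t = 0
      · rw [hx]
      · exact (hmax _ hx).le
    have h1 : ∫ x, (G 0 - G (x - t)) ∂μ = 0 := by
      rw [integral_sub (integrable_const _) (int_cont hGt), he, hzt]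
      simp
    have hnn : (0 : UnitAddCircle → ℝ) ≤ fun x : UnitAddCircle => G 0 - G (x - t) := fun x => by
      show (0 : ℝ) ≤ G 0 - G (x - t)
      linarith [hle x]
    have hcc : Continuous fun x : UnitAddCircle => G 0 - G (x - t) := continuous_const.sub hGt
    rw [integral_eq_zero_iff_of_nonneg hnn (int_cont hcc)] at h1
    filter_upwards [h1] with x hx
    have hx' : G 0 - G (x - t) = 0 := hx
    have hxt : x - t = 0 := by
      by_contra hne
      have := hmax _ hne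
      linarith
    have : x = z := by
      have h2 : x - t = z - t := by rw [hxt, hzt]
      exact sub_left_injective h2
    rw [this]; exact hgz
  · have h1 : K * T * ((1 - 3 * η) * ((g : ℝ) - 1) - (1 + 8 * η) * (a + b)) * ID ≤ 0 := by
      rw [he, sub_self, mul_zero] at e3
      linarith
    have h2 : 0 < K * T * ((1 - 3 * η) * ((g : ℝ) - 1) - (1 + 8 * η) * (a + b)) := by positivity
    have hD : ID = 0 := by
      by_contra hne
      have : 0 < ID := lt_of_le_of_ne hID0 (Ne.symm hne)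
      have := mul_pos h2 this
      linarith
    have hW : IW = 0 := by
      rw [hD, mul_zero] at e2
      have h3 : (0 : ℝ) < g - 1 := by linarith
      by_contra hne
      have : 0 < IW := lt_of_le_of_ne hIW0 (Ne.symm hne)
      have := mul_pos h3 this
      linarith
    rw [hIW, integral_eq_zero_iff_of_nonneg (W_nonneg g (mid g k)) (int_cont (W_cont g _))] at hW
    rw [hID, integral_eq_zero_iff_of_nonneg (D_nonneg g (mid g k)) (int_cont (D_cont g _))] at hD
    filter_upwards [hW, hD] with x hx hx'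
    apply corner A.gpos (k := k)
    have h1 := D_sub_W g (mid g k) x
    have h2 : W g (mid g k) x = 0 := hx
    have h3 : D g (mid g k) x = 0 := hx'
    linarith

end Pool.Agent.K3h90.FP
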