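import Pool.Agent.K3h90.FP.SmoA

/-! # Smooth functions: the constants -/

namespace Pool.Agent.K3h90.FP

open Set

/-- Increments to the right of a nondegenerate maximum. -/
lemma inc_half {f : ℝ → ℝ} (hf : ContDiff ℝ 2 f) (hd : deriv f 0 = 0) {K : ℝ}
    (hK : deriv (deriv f) 0 = -K) (hK0 : 0 < K) {η : ℝ} (hη : 0 < η) :
    ∃ δ : ℝ, 0 < δ ∧ ∀ u v, 0 ≤ u → u ≤ v → v ≤ δ →
      f u - f v ≤ (1 + η) * K * (v ^ 2 - u ^ 2) / 2 ∧
      (1 - η) * K * (v ^ 2 - u ^ 2) / 2 ≤ f u - f v := by
  have hf1 : ContDiff ℝ 1 (deriv f) := by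
    have h := hf
    rw [show (2 : WithTop ℕ∞) = 1 + 1 by norm_num, contDiff_succ_iff_deriv] at h
    exact h.2.2
  have hf0 : Continuous (deriv (deriv f)) := hf1.continuous_deriv le_rfl
  have hdf : Differentiable ℝ f := hf.differentiable (by norm_num)
  have hdf1 : Differentiable ℝ (deriv f) := hf1.differentiable (by norm_num)
  obtain ⟨ε, hε, hball⟩ := Metric.continuousAt_iff.1 (hf0.continuousAt (x := 0)) (η * K)
    (by positivity)
  have hb : ∀ u, 0 ≤ u → u ≤ ε / 2 → |deriv (deriv f) u + K| < η * K := by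
    intro u h0 h1
    have := hball (x := u) (by rw [Real.dist_eq, sub_zero, abs_of_nonneg h0]; linarith)
    rwa [Real.dist_eq, hK, sub_neg_eq_add] at this
  refine ⟨ε / 2, by positivity, ?_⟩
  -- first derivative
  have d1 : ∀ u, 0 ≤ u → u ≤ ε / 2 →
      -((1 + η) * K * u) ≤ deriv f u ∧ deriv f u ≤ -((1 - η) * K * u) := by
    intro u h0 h1
    constructor
    · have mono : MonotoneOn (fun x => deriv f x + (1 + η) * K * x) (Icc 0 (ε / 2)) := by
        apply monotoneOn_of_deriv_nonneg (convex_Icc _ _)
        · exact (hdf1.continuous.add (by fun_prop)).continuousOn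
        · exact (hdf1.add (by fun_prop)).differentiableOn
        · intro x hx
          rw [interior_Icc] at hx
          have e : deriv (fun x => deriv f x + (1 + η) * K * x) x
              = deriv (deriv f) x + (1 + η) * K := by
            have h2 : HasDerivAt (fun x : ℝ => (1 + η) * K * x) ((1 + η) * K) x := by
              simpa using (hasDerivAt_id x).const_mul ((1 + η) * K)
            exact ((hdf1 x).hasDerivAt.add h2).deriv
          rw [e]
          have := (abs_lt.1 (hb x hx.1.le hx.2.le)).1
          linarith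
      have := mono ⟨le_rfl, by linarith⟩ ⟨h0, h1⟩ h0
      simp only [hd, mul_zero, add_zero] at this
      linarith
    · have anti : AntitoneOn (fun x => deriv f x + (1 - η) * K * x) (Icc 0 (ε / 2)) := by
        apply antitoneOn_of_deriv_nonpos (convex_Icc _ _)
        · exact (hdf1.continuous.add (by fun_prop)).continuousOn
        · exact (hdf1.add (by fun_prop)).differentiableOn
        · intro x hx
          rw [interior_Icc] at hx
          have e : deriv (fun x => deriv f x + (1 - η) * K * x) x
              = deriv (deriv f) x + (1 - η) * K := by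
            have h2 : HasDerivAt (fun x : ℝ => (1 - η) * K * x) ((1 - η) * K) x := by
              simpa using (hasDerivAt_id x).const_mul ((1 - η) * K)
            exact ((hdf1 x).hasDerivAt.add h2).deriv
          rw [e]
          have := (abs_lt.1 (hb x hx.1.le hx.2.le)).2
          linarith
      have := anti ⟨le_rfl, by linarith⟩ ⟨h0, h1⟩ h0
      simp only [hd, mul_zero, add_zero] at this
      linarith
  have sq : ∀ (c x : ℝ), HasDerivAt (fun x : ℝ => c * x ^ 2 / 2) (c * x) x := by
    intro c x
    have h := ((hasDerivAt_pow 2 x).const_mul c).div_const 2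
    simp only [Nat.cast_ofNat] at h
    refine h.congr_deriv ?_
    norm_num
    ring
  have mono : MonotoneOn (fun x => f x + (1 + η) * K * x ^ 2 / 2) (Icc 0 (ε / 2)) := by
    apply monotoneOn_of_deriv_nonneg (convex_Icc _ _)
    · exact (hdf.continuous.add (by fun_prop)).continuousOn
    · exact fun x _ => ((hdf x).hasDerivAt.add (sq _ x)).differentiableAt.differentiableWithinAt
    · intro x hx
      rw [interior_Icc] at hx
      have e : deriv (fun x => f x + (1 + η) * K * x ^ 2 / 2) x = deriv f x + (1 + η) * K * x :=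
        ((hdf x).hasDerivAt.add (sq _ x)).deriv
      rw [e]
      have := (d1 x hx.1.le hx.2.le).1
      linarith
  have anti : AntitoneOn (fun x => f x + (1 - η) * K * x ^ 2 / 2) (Icc 0 (ε / 2)) := by
    apply antitoneOn_of_deriv_nonpos (convex_Icc _ _)
    · exact (hdf.continuous.add (by fun_prop)).continuousOn
    · exact fun x _ => ((hdf x).hasDerivAt.add (sq _ x)).differentiableAt.differentiableWithinAt
    · intro x hx
      rw [interior_Icc] at hx
      have e : deriv (fun x => f x + (1 - η) * K * x ^ 2 / 2) x = deriv f x + (1 - η) * K * x :=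
        ((hdf x).hasDerivAt.add (sq _ x)).deriv
      rw [e]
      have := (d1 x hx.1.le hx.2.le).2
      linarith
  intro u v h0 huv hv
  have m1 := mono ⟨h0, huv.trans hv⟩ ⟨h0.trans huv, hv⟩ huv
  have m2 := anti ⟨h0, huv.trans hv⟩ ⟨h0.trans huv, hv⟩ huv
  simp only at m1 m2
  constructor <;> nlinarith

/-- Quadratic increments at a nondegenerate maximum of a function of class `C ^ 2`. -/
theorem inc_of_smooth {f : ℝ → ℝ} (hf : ContDiff ℝ 2 f) (hd : deriv f 0 = 0)
    (hK : deriv (deriv f) 0 < 0) {η : ℝ} (hη : 0 < η) :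
    ∃ δ : ℝ, 0 < δ ∧ ∀ δ' ≤ δ, Inc f (-deriv (deriv f) 0) η δ' := by
  obtain ⟨δ₁, h1, H1⟩ := inc_half hf hd (K := -deriv (deriv f) 0) (by ring) (by linarith) hη
  have hn : ContDiff ℝ 2 (fun u => f (-u)) := hf.comp contDiff_neg
  have hdf : Differentiable ℝ f := hf.differentiable (by norm_num)
  have hf1 : ContDiff ℝ 1 (deriv f) := by
    have h := hf
    rw [show (2 : WithTop ℕ∞) = 1 + 1 by norm_num, contDiff_succ_iff_deriv] at h
    exact h.2.2
  have hdf1 : Differentiable ℝ (deriv f) := hf1.differentiable (by norm_num)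
  have e1 : deriv (fun u => f (-u)) = fun u => -deriv f (-u) := by
    funext u
    exact deriv_comp_neg f u
  have e2 : deriv (deriv (fun u => f (-u))) 0 = deriv (deriv f) 0 := by
    rw [e1]
    have h2 : HasDerivAt (fun u : ℝ => deriv f (-u)) (-deriv (deriv f) (-0)) 0 := by
      have h3 := (hdf1 (-0)).hasDerivAt.comp (0 : ℝ) (hasDerivAt_neg (0 : ℝ))
      simpa [Function.comp_def] using h3
    have h4 := h2.neg.deriv
    simp only [neg_neg, neg_zero] at h4
    exact h4
  obtain ⟨δ₂, h2, H2⟩ := inc_half hn (by rw [e1]; simp [hd]) (K := -deriv (deriv f) 0)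
    (by rw [e2]; ring) (by linarith) hη
  refine ⟨min δ₁ δ₂, lt_min h1 h2, fun δ' hδ' => ?_⟩
  have g1 := hδ'.trans (min_le_left _ _)
  have g2 := hδ'.trans (min_le_right _ _)
  exact ⟨by linarith, fun u v a b c => (H1 u v a b (c.trans g1)).1,
    fun u v a b c => (H1 u v a b (c.trans g1)).2, fun u v a b c => (H2 u v a b (c.trans g2)).1,
    fun u v a b c => (H2 u v a b (c.trans g2)).2⟩

end Pool.Agent.K3h90.FP
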