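import Pool.Agent.K3h90.FP.SmoB
import Pool.Agent.K3h90.FP.SmoC
import Pool.Agent.K3h90.FP.Main

/-! # Smooth functions: the theorem -/

namespace Pool.Agent.K3h90.FP

open MeasureTheory Pool.Agent.Y315.CF

lemma cont_of_lift {F : UnitAddCircle → ℝ} (hF : Continuous fun x : ℝ => F (x : UnitAddCircle)) :
    Continuous F :=
  (QuotientAddGroup.isQuotientMap_mk (N := AddSubgroup.zmultiples (1 : ℝ))).continuous_iff.2 hF

/-- Away from its unique maximum a continuous function is bounded away from its maximal value. -/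
lemma far_bound {G : UnitAddCircle → ℝ} (hG : Continuous G) (hmax : ∀ y, y ≠ 0 → G y < G 0)
    {δ : ℝ} (hδ : 0 < δ) : ∃ κ : ℝ, 0 < κ ∧ ∀ y : UnitAddCircle, δ ≤ ‖y‖ → G y ≤ G 0 - κ := by
  have hcl : IsClosed {y : UnitAddCircle | δ ≤ ‖y‖} := isClosed_le continuous_const continuous_norm
  rcases Set.eq_empty_or_nonempty {y : UnitAddCircle | δ ≤ ‖y‖} with h | h
  · refine ⟨1, one_pos, fun y hy => ?_⟩
    have : y ∈ {y : UnitAddCircle | δ ≤ ‖y‖} := hy
    rw [h] at this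
    exact absurd this (Set.notMem_empty y)
  · obtain ⟨y₀, hy₀, hle⟩ := hcl.isCompact.exists_isMaxOn h hG.continuousOn
    have hy₀' : δ ≤ ‖y₀‖ := hy₀
    have hne : y₀ ≠ 0 := by
      rintro rfl
      rw [norm_zero] at hy₀'
      linarith
    refine ⟨G 0 - G y₀, by linarith [hmax y₀ hne], fun y hy => ?_⟩
    have := hle (show y ∈ {y : UnitAddCircle | δ ≤ ‖y‖} from hy)
    have h2 : G y ≤ G y₀ := this
    linarith

theorem smooth (F : UnitAddCircle → ℝ) (x₀ : UnitAddCircle)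
    (hF : ContDiff ℝ 2 (fun x : ℝ => F (x : UnitAddCircle)))
    (hmax : ∀ y, y ≠ x₀ → F y < F x₀)
    (hnd : deriv (deriv fun x : ℝ => F (x₀ + (x : UnitAddCircle))) 0 < 0) {ε : ℝ} (hε : 0 < ε) :
    ∃ Q : ℕ, ∀ p q : ℕ, 1 < p → p < q → Q ≤ q →
      (1 + ε) * ((p : ℝ) + q) ≤ (((p - 1).gcd (q - 1) : ℕ) : ℝ) ^ 2 →
      ∀ t : UnitAddCircle, ∃ z : UnitAddCircle, p • z = z ∧ q • z = z ∧
        ∀ μ : Measure UnitAddCircle, IsProbabilityMeasure μ →
          MeasurePreserving (fun x => p • x) μ μ → MeasurePreserving (fun x => q • x) μ μ →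
          ∫ x, F (x - t) ∂μ ≤ F (z - t) ∧
            (∫ x, F (x - t) ∂μ = F (z - t) → ∀ᵐ x ∂μ, p • x = x ∧ q • x = x) := by
  obtain ⟨a, rfl⟩ := QuotientAddGroup.mk_surjective x₀
  obtain ⟨G, hGd⟩ : ∃ G : UnitAddCircle → ℝ, G = fun y => F ((QuotientAddGroup.mk a : UnitAddCircle) + y) :=
    ⟨_, rfl⟩
  have hGF : ∀ y, G y = F ((QuotientAddGroup.mk a : UnitAddCircle) + y) := fun y => by rw [hGd]
  have hFc : Continuous F := cont_of_lift hF.continuous
  have hGc : Continuous G := by rw [hGd]; exact hFc.comp (by fun_prop)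
  have hGm : ∀ y, y ≠ 0 → G y < G 0 := by
    intro y hy
    rw [hGF, hGF, add_zero]
    apply hmax
    intro h
    apply hy
    have : (QuotientAddGroup.mk a : UnitAddCircle) + y = QuotientAddGroup.mk a + 0 := by
      rw [add_zero]; exact h
    exact add_left_cancel this
  obtain ⟨f, hf⟩ : ∃ f : ℝ → ℝ, f = fun u : ℝ => G (u : UnitAddCircle) := ⟨_, rfl⟩
  have hff : f = fun x : ℝ => F ((QuotientAddGroup.mk a : UnitAddCircle) + (x : UnitAddCircle)) := by
    rw [hf]; funext x; rw [hGF]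
  have cf : ContDiff ℝ 2 f := by
    have h1 : f = fun x : ℝ => F (((a + x : ℝ)) : UnitAddCircle) := by
      rw [hff]; funext x; rw [AddCircle.coe_add]
    rw [h1]
    exact hF.comp (contDiff_const.add contDiff_id)
  have hfnd : deriv (deriv f) 0 < 0 := by rw [hff]; exact hnd
  have hfd : deriv f 0 = 0 := by
    apply IsLocalMax.deriv_eq_zero
    apply Filter.Eventually.of_forall
    intro u
    rw [hf]
    show G (u : UnitAddCircle) ≤ G ((0 : ℝ) : UnitAddCircle)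
    have e : ((0 : ℝ) : UnitAddCircle) = 0 := by simp
    rw [e]
    by_cases hu : (u : UnitAddCircle) = 0
    · rw [hu]
    · exact (hGm _ hu).le
  -- constants
  obtain ⟨e, he⟩ : ∃ e : ℝ, e = min ε 1 := ⟨_, rfl⟩
  have he0 : 0 < e := by rw [he]; exact lt_min hε one_pos
  have he1 : e ≤ 1 := by rw [he]; exact min_le_right _ _
  have heε : e ≤ ε := by rw [he]; exact min_le_left _ _
  obtain ⟨η, hη⟩ : ∃ η : ℝ, η = e / 28 := ⟨_, rfl⟩
  have hη0 : 0 < η := by rw [hη]; positivity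
  have hη1 : η ≤ 1 / 28 := by rw [hη]; linarith
  obtain ⟨δ₁, hδ₁, HI⟩ := inc_of_smooth cf hfd hfnd hη0
  obtain ⟨δ, hδ⟩ : ∃ δ : ℝ, δ = min δ₁ (1 / 4) := ⟨_, rfl⟩
  have hδ0 : 0 < δ := by rw [hδ]; exact lt_min hδ₁ (by norm_num)
  have hδ4 : δ ≤ 1 / 4 := by rw [hδ]; exact min_le_right _ _
  have I := HI δ (by rw [hδ]; exact min_le_left _ _)
  obtain ⟨K, hKd⟩ : ∃ K : ℝ, K = -deriv (deriv f) 0 := ⟨_, rfl⟩
  rw [← hKd] at I
  have hK := I.hK
  obtain ⟨κ, hκ0, hfar⟩ := far_bound hGc hGm hδ0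
  obtain ⟨N, hN⟩ := exists_nat_ge (4 + 1 / δ + 2 * K / κ + 4 / e)
  have p1 : 0 < 1 / δ := by positivity
  have p2 : 0 < 2 * K / κ := by positivity
  have p3 : 0 < 4 / e := by positivity
  refine ⟨N ^ 2, fun p q hp hpq hQ hg2 t => ?_⟩
  have hpR : (1 : ℝ) < p := by exact_mod_cast hp
  have hqR : (1 : ℝ) < q := by exact_mod_cast (by omega : 1 < q)
  obtain ⟨g, hgd⟩ : ∃ g : ℕ, g = (p - 1).gcd (q - 1) := ⟨_, rfl⟩
  rw [← hgd] at hg2
  have hle : ((p : ℝ) + q) ≤ (g : ℝ) ^ 2 := by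
    have : 0 ≤ ε * ((p : ℝ) + q) := by positivity
    linarith
  have hnat : p + q ≤ g ^ 2 + 2 := by
    have : p + q ≤ g ^ 2 := by exact_mod_cast hle
    omega
  obtain ⟨m, n, A, -, hsum⟩ := ar_of hp hpq (by rw [← hgd]; exact hnat)
  rw [← hgd] at A hsum
  have hgN : (N : ℝ) ≤ g := by
    have h1 : ((N : ℝ)) ^ 2 ≤ (g : ℝ) ^ 2 := by
      have h2 : ((N ^ 2 : ℕ) : ℝ) ≤ q := by exact_mod_cast hQ
      push_cast at h2
      linarith
    exact le_of_sq_le_sq h1 (Nat.cast_nonneg g)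
  have hg4 : (4 : ℝ) ≤ g := by linarith
  have hg' : (0 : ℝ) < g := by linarith
  have hgδ : 1 / (g : ℝ) ≤ δ := by
    have h1 : 1 / δ ≤ g := by linarith
    rw [div_le_iff₀ hδ0] at h1
    rw [div_le_iff₀ hg']; linarith
  have hκ : 2 * K ≤ κ * g := by
    have h1 : 2 * K / κ ≤ g := by linarith
    rw [div_le_iff₀ hκ0] at h1
    linarith
  have hge : 4 ≤ e * g := by
    have h1 : 4 / e ≤ g := by linarith
    rw [div_le_iff₀ he0] at h1
    linarith
  have hS : (1 + e) * ((m : ℝ) + n) < g := by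
    have h1 : ((p : ℝ) + q) = (m + n) * g + 2 := by exact_mod_cast hsum
    have h2 : (1 + e) * ((m : ℝ) + n) * g < g * g := by
      have h3 : (1 + e) * ((p : ℝ) + q) ≤ (g : ℝ) ^ 2 := by
        refine le_trans ?_ hg2
        apply mul_le_mul_of_nonneg_right _ (by positivity)
        linarith
      rw [h1] at h3
      nlinarith
    exact lt_of_mul_lt_mul_right h2 hg'.le
  have hab : (1 + 8 * η) * ((m : ℝ) + n) < (1 - 3 * η) * (g - 1) := by
    have h1 : (1 + 8 * η) * ((1 + e) * ((m : ℝ) + n)) < (1 + 8 * η) * g :=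
      mul_lt_mul_of_pos_left hS (by linarith)
    have he28 : e = 28 * η := by rw [hη]; ring
    have h2 : (1 + 8 * η) * (g : ℝ) ≤ (1 + e) * ((1 - 3 * η) * (g - 1)) := by
      rw [he28]
      have h3 : (1 + 22 * η) ≤ (1 + 28 * η) * (1 - 3 * η) := by nlinarith
      have h4 : (1 + 22 * η) * ((g : ℝ) - 1) ≤ (1 + 28 * η) * (1 - 3 * η) * (g - 1) :=
        mul_le_mul_of_nonneg_right h3 (by linarith)
      have h5 : 4 ≤ 28 * η * g := by rw [← he28]; exact hge
      nlinarith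
    have h3 : (1 + e) * ((1 + 8 * η) * ((m : ℝ) + n)) < (1 + e) * ((1 - 3 * η) * (g - 1)) := by
      calc (1 + e) * ((1 + 8 * η) * ((m : ℝ) + n)) = (1 + 8 * η) * ((1 + e) * ((m : ℝ) + n)) := by
            ring
        _ < _ := lt_of_lt_of_le h1 h2
    exact lt_of_mul_lt_mul_left h3 (by linarith)
  rw [hf] at I
  obtain ⟨z, hgz, hz⟩ := smooth_core hGc hGm I hη0.le (by linarith) hδ4 hfar A
    (by exact_mod_cast hg4) hgδ hκ hab (t + QuotientAddGroup.mk a)
  have hG2 : ∀ y : UnitAddCircle, G (y - (t + QuotientAddGroup.mk a)) = F (y - t) := by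
    intro y
    rw [hGF]
    congr 1
    abel
  refine ⟨z, (fixed_of A hgz).1, (fixed_of A hgz).2, fun μ hμ hp' hq' => ?_⟩
  have h1 := hz μ hμ hp' hq'
  simp only [hG2] at h1
  refine ⟨h1.1, fun h => ?_⟩
  filter_upwards [h1.2 h] with x hx
  exact fixed_of A hx

end Pool.Agent.K3h90.FP
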