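import Mathlib

/-! # The basic pointwise inequality, on the real line -/

namespace Pool.Agent.K3h90.FP

/-- The case `τ ≥ 0` of the inequality near a common fixed point. -/
lemma near_corner {a b g : ℕ} (ha : 1 ≤ a) (hab : a < b) {w τ : ℝ}
    (hτ : 0 ≤ τ) {e1 e2 : ℝ} (h1 : |e1| = |(a * g + 1) * τ - w|)
    (h2 : |e2| = |(b * g + 1) * τ - w|) :
    g * τ ≤ max (w - |e1|) 0 + b * max (|e1| - w) 0 + a * max (|e2| - w) 0 := by
  have ha' : (1 : ℝ) ≤ a := by exact_mod_cast ha
  have hb' : (a : ℝ) + 1 ≤ b := by exact_mod_cast hab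
  have hg0 : (0 : ℝ) ≤ g := Nat.cast_nonneg g
  set X : ℝ := g * τ with hX
  have hX0 : 0 ≤ X := by positivity
  have hA : X ≤ a * X := by nlinarith
  have hB : a * X + X ≤ b * X := by nlinarith
  have e1' : (a * (g : ℝ) + 1) * τ = a * X + τ := by rw [hX]; ring
  have e2' : (b * (g : ℝ) + 1) * τ = b * X + τ := by rw [hX]; ring
  rw [h1, h2, e1', e2']
  set A := a * X
  set B := b * X
  have m1 := le_max_left (|A + τ - w| - w) 0
  have m2 := le_max_right (|A + τ - w| - w) 0
  have m3 := le_max_left (|B + τ - w| - w) 0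
  have m4 := le_max_right (|B + τ - w| - w) 0
  have m5 := le_max_left (w - |A + τ - w|) 0
  have m6 := le_max_right (w - |A + τ - w|) 0
  set D1 := max (|A + τ - w| - w) 0
  set D2 := max (|B + τ - w| - w) 0
  set W1 := max (w - |A + τ - w|) 0
  have hD1 : D1 ≤ b * D1 := by nlinarith
  have hD2 : D2 ≤ a * D2 := by nlinarith
  rcases le_total (A + τ) w with c1 | c1
  · -- `|A + τ - w| = w - A - τ`
    have : |A + τ - w| = w - A - τ := by rw [abs_of_nonpos (by linarith)]; ring
    linarith
  · have q1 : |A + τ - w| = A + τ - w := abs_of_nonneg (by linarith)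
    have q2 : |B + τ - w| = B + τ - w := abs_of_nonneg (by linarith)
    rcases le_total (A + τ) (2 * w) with c2 | c2
    · rcases le_total (B + τ) (2 * w) with c3 | c3
      · linarith
      · linarith
    · linarith

/-- The inequality for a point `c + s` of the arc, `|s| ≤ w = 1 / (2 g)`. -/
lemma star_key {a b g : ℕ} (ha : 1 ≤ a) (hab : a < b) (hg : a + b ≤ g) (hco : a.Coprime b)
    {w s : ℝ} (hw : 2 * (g : ℝ) * w = 1) (hs : |s| ≤ w) {i j : ℤ} {e1 e2 : ℝ}
    (he1 : e1 = a / 2 + (a * g + 1) * s - i) (he2 : e2 = b / 2 + (b * g + 1) * s - j)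
    (h1 : |e1| ≤ 1 / 2) :
    g * (w - |s|) ≤ max (w - |e1|) 0 + b * max (|e1| - w) 0 + a * max (|e2| - w) 0 := by
  have ha' : (1 : ℝ) ≤ a := by exact_mod_cast ha
  have hb' : (a : ℝ) + 1 ≤ b := by exact_mod_cast hab
  have hg' : (a : ℝ) + b ≤ g := by exact_mod_cast hg
  have hg3 : (3 : ℝ) ≤ g := by linarith
  have hw0 : 0 < w := by
    by_contra h
    push Not at h
    nlinarith
  by_cases hr : (a : ℤ) * j - b * i = 0
  · -- both images are near the arc
    have hdvd : (a : ℤ) ∣ i := by
      have h3 : (a : ℤ) ∣ b * i := ⟨j, by linarith⟩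
      exact (Int.isCoprime_iff_gcd_eq_one.2 (by simpa using hco)).dvd_of_dvd_mul_left h3
    obtain ⟨m, rfl⟩ := hdvd
    have hj : j = b * m := by
      have h3 : (a : ℤ) * (j - b * m) = 0 := by linarith
      rcases mul_eq_zero.1 h3 with h4 | h4
      · have : (a : ℤ) ≠ 0 := by exact_mod_cast (by omega : a ≠ 0)
        exact absurd h4 this
      · linarith
    subst hj
    have hsb := abs_le.1 hs
    have hXs : (g : ℝ) * |s| ≤ 1 / 2 := by nlinarith [abs_nonneg s]
    -- `m = 0` or `m = 1`
    have hm : m = 0 ∨ m = 1 := by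
      by_contra hm
      push Not at hm
      have hm' : m ≤ -1 ∨ 2 ≤ m := by omega
      have hgs : |(g : ℝ) * s| ≤ 1 / 2 := by rw [abs_mul, abs_of_nonneg (by linarith : (0:ℝ) ≤ g)]; exact hXs
      have hgs' := abs_le.1 hgs
      have hw6 : w ≤ 1 / 6 := by nlinarith
      have h5 := abs_le.1 h1
      rw [he1] at h5
      push_cast at h5
      rcases hm' with h6 | h6
      · have h7 : (m : ℝ) ≤ -1 := by exact_mod_cast h6
        have h8 : (a : ℝ) * (g * s) ≥ - (a * (1 / 2)) := by nlinarith
        have h9 : (a : ℝ) * m ≤ - a := by nlinarith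
        have : (a * (g : ℝ) + 1) * s = a * (g * s) + s := by ring
        rw [this] at h5
        linarith [h5.2]
      · have h7 : (2 : ℝ) ≤ m := by exact_mod_cast h6
        have h8 : (a : ℝ) * (g * s) ≤ a * (1 / 2) := by nlinarith
        have h9 : (a : ℝ) * 2 ≤ a * m := by nlinarith
        have : (a * (g : ℝ) + 1) * s = a * (g * s) + s := by ring
        rw [this] at h5
        linarith [h5.1]
    rcases hm with rfl | rfl
    · -- `τ = w + s`
      have k1 : |e1| = |(a * g + 1) * (w + s) - w| := by
        congr 1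
        rw [he1]; push_cast
        have : (a : ℝ) * (2 * g * w) = a := by rw [hw, mul_one]
        nlinarith
      have k2 : |e2| = |(b * g + 1) * (w + s) - w| := by
        congr 1
        rw [he2]; push_cast
        have : (b : ℝ) * (2 * g * w) = b := by rw [hw, mul_one]
        nlinarith
      have := near_corner ha hab (τ := w + s) (by linarith) k1 k2
      refine le_trans ?_ this
      apply mul_le_mul_of_nonneg_left _ (by linarith)
      have := neg_abs_le s
      linarith
    · have k1 : |e1| = |(a * g + 1) * (w - s) - w| := by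
        rw [← abs_neg]
        congr 1
        rw [he1]; push_cast
        have : (a : ℝ) * (2 * g * w) = a := by rw [hw, mul_one]
        nlinarith
      have k2 : |e2| = |(b * g + 1) * (w - s) - w| := by
        rw [← abs_neg]
        congr 1
        rw [he2]; push_cast
        have : (b : ℝ) * (2 * g * w) = b := by rw [hw, mul_one]
        nlinarith
      have := near_corner ha hab (τ := w - s) (by linarith) k1 k2
      refine le_trans ?_ this
      apply mul_le_mul_of_nonneg_left _ (by linarith)
      have := le_abs_self s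
      linarith
  · have hr1 : (1 : ℝ) ≤ |(a : ℝ) * j - b * i| := by
      have : (1 : ℤ) ≤ |(a : ℤ) * j - b * i| := Int.one_le_abs hr
      exact_mod_cast this
    have hid : (a : ℝ) * j - b * i = b * e1 - a * e2 - (b - a) * s := by
      rw [he1, he2]; ring
    have hle : |(a : ℝ) * j - b * i| ≤ b * |e1| + a * |e2| + (b - a) * |s| := by
      rw [hid]
      calc |(b : ℝ) * e1 - a * e2 - (b - a) * s| ≤ |(b : ℝ) * e1 - a * e2| + |((b : ℝ) - a) * s| :=
            abs_sub _ _
        _ ≤ |(b : ℝ) * e1| + |a * e2| + |((b : ℝ) - a) * s| := by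
            have := abs_sub ((b : ℝ) * e1) (a * e2); linarith
        _ = b * |e1| + a * |e2| + (b - a) * |s| := by
            rw [abs_mul, abs_mul, abs_mul, abs_of_nonneg (by linarith : (0 : ℝ) ≤ b),
              abs_of_nonneg (by linarith : (0 : ℝ) ≤ a),
              abs_of_nonneg (by linarith : (0 : ℝ) ≤ (b : ℝ) - a)]
    have m1 := le_max_left (|e1| - w) 0
    have m3 := le_max_left (|e2| - w) 0
    have m6 := le_max_right (w - |e1|) 0
    have n1 : (b : ℝ) * (|e1| - w) ≤ b * max (|e1| - w) 0 :=
      mul_le_mul_of_nonneg_left m1 (by linarith)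
    have n2 : (a : ℝ) * (|e2| - w) ≤ a * max (|e2| - w) 0 :=
      mul_le_mul_of_nonneg_left m3 (by linarith)
    have hs0 := abs_nonneg s
    have n3 : ((a : ℝ) + b) * w ≤ 1 / 2 := by nlinarith
    have n4 : ((b : ℝ) - a) * |s| ≤ g * |s| := by nlinarith
    nlinarith

end Pool.Agent.K3h90.FP
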